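import Pool.Agent.H61.PO.Defs

/-!
# Part E (helper10): points of a simple closed curve outside a closed set are arc points of the union
-/

namespace Pool.Agent.H10.PO

open Set Filter Topology Pool.Agent.H61.PO

variable {X : Type*} [TopologicalSpace X]

theorem isArc_symm {σ : Set X} {p q : X} (h : IsArc σ p q) : IsArc σ q p := by
  obtain ⟨α, hc, hi, hσ, h0, h1⟩ := h
  have hm : MapsTo (fun t : ℝ => 1 - t) (Icc 0 1) (Icc 0 1) := by
    rintro t ⟨a, b⟩
    exact ⟨by linarith, by linarith⟩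
  refine ⟨fun t => α (1 - t), hc.comp (by fun_prop) hm, ?_, ?_, by simp [h1], by simp [h0]⟩
  · intro s hs t ht hst
    have := hi (hm hs) (hm ht) hst
    simp only at this
    linarith
  · rw [hσ]
    ext x
    constructor
    · rintro ⟨t, ht, rfl⟩
      exact ⟨1 - t, hm ht, by simp⟩
    · rintro ⟨t, ht, rfl⟩
      exact ⟨1 - t, hm ht, rfl⟩

theorem scc_symm {γ : Set X} (h : SCC γ) : ∃ (p q : X) (σ τ : Set X), IsArc σ p q ∧ IsArc τ p q ∧
    σ ∩ τ = {p, q} ∧ γ = σ ∪ τ := h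

variable [T2Space X]

omit [T2Space X] in
/-- small intervals on which an arc avoids a closed set -/
theorem avoid {α : ℝ → X} (hc : ContinuousOn α (Icc 0 1)) {t : ℝ} (ht : t ∈ Icc (0 : ℝ) 1)
    {B : Set X} (hB : IsClosed B) (htB : α t ∉ B) :
    ∃ δ > 0, ∀ s ∈ Icc (0 : ℝ) 1, |s - t| ≤ δ → α s ∉ B := by
  have h1 : α ⁻¹' Bᶜ ∈ 𝓝[Icc 0 1] t := (hc t ht) (hB.isOpen_compl.mem_nhds htB)
  obtain ⟨ε, hε, h2⟩ := Metric.mem_nhdsWithin_iff.1 h1
  refine ⟨ε / 2, by positivity, fun s hs hst => h2 ⟨?_, hs⟩⟩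
  rw [Metric.mem_ball, Real.dist_eq]
  linarith

theorem arc_inner {σ τ B : Set X} {α : ℝ → X} (hc : ContinuousOn α (Icc 0 1))
    (hi : InjOn α (Icc 0 1)) (hσ : σ = α '' Icc 0 1) (hτ : IsClosed τ)
    (hστ : σ ∩ τ ⊆ {α 0, α 1}) (hB : IsClosed B) {t : ℝ} (ht : t ∈ Ioo (0 : ℝ) 1)
    (htB : α t ∉ B) : ArcPt (σ ∪ τ ∪ B) (α t) := by
  obtain ⟨δ₀, hδ₀, hav⟩ := avoid hc ⟨ht.1.le, ht.2.le⟩ hB htB
  obtain ⟨δ, hδ, h1, h2, h3⟩ : ∃ δ > 0, δ ≤ δ₀ ∧ δ < t ∧ δ < 1 - t := by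
    refine ⟨min δ₀ (min (t / 2) ((1 - t) / 2)), ?_, min_le_left _ _, ?_, ?_⟩
    · have := ht.1
      have := ht.2
      exact lt_min hδ₀ (lt_min (by linarith) (by linarith))
    · have h := (min_le_right δ₀ (min (t / 2) ((1 - t) / 2))).trans (min_le_left _ _)
      have := ht.1
      linarith
    · have h := (min_le_right δ₀ (min (t / 2) ((1 - t) / 2))).trans (min_le_right _ _)
      have := ht.2
      linarith
  have hm : MapsTo (fun s : ℝ => t + δ * s) (Icc (-1) 1) (Icc 0 1) := by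
    rintro s ⟨a, b⟩
    constructor
    · show 0 ≤ t + δ * s
      nlinarith
    · show t + δ * s ≤ 1
      nlinarith
  refine ⟨fun s => α (t + δ * s), hc.comp (by fun_prop) hm, ?_, by simp, ?_, ?_⟩
  · intro s hs s' hs' hss
    have h4 := hi (hm hs) (hm hs') hss
    simp only at h4
    have h5 : δ * s = δ * s' := by linarith
    exact mul_left_cancel₀ hδ.ne' h5
  · rintro _ ⟨s, hs, rfl⟩
    left; left
    rw [hσ]
    exact ⟨_, hm hs, rfl⟩
  · have hset : (σ ∪ τ ∪ B) \ (fun s => α (t + δ * s)) '' Ioo (-1) 1 =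
        α '' Icc 0 (t - δ) ∪ α '' Icc (t + δ) 1 ∪ τ ∪ B := by
      ext x
      constructor
      · rintro ⟨(hx | hx) | hx, hn⟩
        · rw [hσ] at hx
          obtain ⟨s, hs, rfl⟩ := hx
          by_cases h4 : s ≤ t - δ
          · exact Or.inl (Or.inl (Or.inl ⟨s, ⟨hs.1, h4⟩, rfl⟩))
          by_cases h5 : t + δ ≤ s
          · exact Or.inl (Or.inl (Or.inr ⟨s, ⟨h5, hs.2⟩, rfl⟩))
          exfalso
          apply hn
          push Not at h4 h5
          refine ⟨(s - t) / δ, ⟨?_, ?_⟩, ?_⟩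
          · rw [lt_div_iff₀ hδ]; linarith
          · rw [div_lt_iff₀ hδ]; linarith
          · show α (t + δ * ((s - t) / δ)) = α s
            congr 1
            field_simp
            ring
        · exact Or.inl (Or.inr hx)
        · exact Or.inr hx
      · have hbad : ∀ s ∈ Ioo (-1 : ℝ) 1, ∀ u ∈ Icc (0 : ℝ) 1, α (t + δ * s) = α u →
            t - δ < u ∧ u < t + δ := by
          intro s hs u hu h
          have h4 := hi (hm ⟨hs.1.le, hs.2.le⟩) hu h
          simp only at h4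
          rw [← h4]
          constructor
          · nlinarith [hs.1]
          · nlinarith [hs.2]
        rintro (((⟨u, hu, rfl⟩ | ⟨u, hu, rfl⟩) | hx) | hx)
        · refine ⟨Or.inl (Or.inl ?_), ?_⟩
          · rw [hσ]
            exact ⟨u, ⟨hu.1, by linarith [hu.2, ht.2]⟩, rfl⟩
          · rintro ⟨s, hs, h⟩
            have := hbad s hs u ⟨hu.1, by linarith [hu.2, ht.2]⟩ h
            linarith [hu.2, this.1]
        · refine ⟨Or.inl (Or.inl ?_), ?_⟩
          · rw [hσ]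
            exact ⟨u, ⟨by linarith [hu.1, ht.1], hu.2⟩, rfl⟩
          · rintro ⟨s, hs, h⟩
            have := hbad s hs u ⟨by linarith [hu.1, ht.1], hu.2⟩ h
            linarith [hu.1, this.2]
        · refine ⟨Or.inl (Or.inr hx), ?_⟩
          rintro ⟨s, hs, rfl⟩
          have hxσ : α (t + δ * s) ∈ σ := by
            rw [hσ]
            exact ⟨_, hm ⟨hs.1.le, hs.2.le⟩, rfl⟩
          rcases hστ ⟨hxσ, hx⟩ with h | h
          · have := hbad s hs 0 ⟨le_rfl, zero_le_one⟩ h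
            linarith [this.1]
          · have := hbad s hs 1 ⟨zero_le_one, le_rfl⟩ h
            linarith [this.2]
        · refine ⟨Or.inr hx, ?_⟩
          rintro ⟨s, hs, rfl⟩
          refine hav (t + δ * s) (hm ⟨hs.1.le, hs.2.le⟩) ?_ hx
          rw [show t + δ * s - t = δ * s by ring, abs_mul, abs_of_pos hδ]
          have : |s| ≤ 1 := abs_le.2 ⟨hs.1.le, hs.2.le⟩
          nlinarith
    rw [hset]
    refine ((IsClosed.union ?_ ?_).union hτ).union hB
    · exact (isCompact_Icc.image_of_continuousOn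
        (hc.mono (Icc_subset_Icc le_rfl (by linarith [ht.2])))).isClosed
    · exact (isCompact_Icc.image_of_continuousOn
        (hc.mono (Icc_subset_Icc (by linarith [ht.1]) le_rfl))).isClosed

theorem arc_end {σ τ B : Set X} {p q : X} (hσ : IsArc σ p q) (hτ : IsArc τ p q)
    (hστ : σ ∩ τ = {p, q}) (hB : IsClosed B) (hpB : p ∉ B) : ArcPt (σ ∪ τ ∪ B) p := by
  obtain ⟨α, hαc, hαi, hασ, hα0, hα1⟩ := hσ
  obtain ⟨β, hβc, hβi, hβτ, hβ0, hβ1⟩ := hτ
  obtain ⟨δ₁, hδ₁, hav1⟩ := avoid hαc ⟨le_rfl, zero_le_one⟩ hB (by rw [hα0]; exact hpB)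
  obtain ⟨δ₂, hδ₂, hav2⟩ := avoid hβc ⟨le_rfl, zero_le_one⟩ hB (by rw [hβ0]; exact hpB)
  obtain ⟨δ, hδ, h1, h2, h3⟩ : ∃ δ > 0, δ ≤ δ₁ ∧ δ ≤ δ₂ ∧ δ < 1 := by
    refine ⟨min (min δ₁ δ₂) (1 / 2), lt_min (lt_min hδ₁ hδ₂) (by norm_num),
      (min_le_left _ _).trans (min_le_left _ _), (min_le_left _ _).trans (min_le_right _ _), ?_⟩
    exact lt_of_le_of_lt (min_le_right _ _) (by norm_num)
  have hm : MapsTo (fun s : ℝ => δ * s) (Icc 0 1) (Icc 0 1) := by
    rintro s ⟨a, b⟩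
    exact ⟨by positivity, by show δ * s ≤ 1; nlinarith⟩
  have hm' : MapsTo (fun s : ℝ => -(δ * s)) (Icc (-1) 0) (Icc 0 1) := by
    rintro s ⟨a, b⟩
    exact ⟨by show 0 ≤ -(δ * s); nlinarith, by show -(δ * s) ≤ 1; nlinarith⟩
  set g : ℝ → X := fun s => if 0 ≤ s then α (δ * s) else β (-(δ * s)) with hg
  have hgpos : ∀ s, 0 ≤ s → g s = α (δ * s) := fun s hs => by rw [hg]; exact if_pos hs
  have hgneg : ∀ s, s ≤ 0 → g s = β (-(δ * s)) := by
    intro s hs
    rcases hs.eq_or_lt with h | h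
    · rw [h, hgpos 0 le_rfl]
      simp [hα0, hβ0]
    · rw [hg]; exact if_neg (not_le.2 h)
  have hpq : p ≠ q := by
    intro h
    have := hαi ⟨le_rfl, zero_le_one⟩ ⟨zero_le_one, le_rfl⟩ (by rw [hα0, hα1, h])
    norm_num at this
  -- values of `α` on `(0, δ]` are not in `τ`
  have hατ : ∀ u, 0 < u → u ≤ δ → α u ∉ τ := by
    intro u hu0 huδ hτu
    have hu : u ∈ Icc (0 : ℝ) 1 := ⟨hu0.le, by linarith⟩
    have : α u ∈ σ ∩ τ := ⟨by rw [hασ]; exact ⟨u, hu, rfl⟩, hτu⟩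
    rw [hστ] at this
    rcases this with h | h
    · have := hαi hu ⟨le_rfl, zero_le_one⟩ (by rw [hα0]; exact h)
      linarith
    · have := hαi hu ⟨zero_le_one, le_rfl⟩ (by rw [hα1]; exact h)
      linarith
  have hβσ : ∀ u, 0 < u → u ≤ δ → β u ∉ σ := by
    intro u hu0 huδ hσu
    have hu : u ∈ Icc (0 : ℝ) 1 := ⟨hu0.le, by linarith⟩
    have : β u ∈ σ ∩ τ := ⟨hσu, by rw [hβτ]; exact ⟨u, hu, rfl⟩⟩
    rw [hστ] at this
    rcases this with h | h
    · have := hβi hu ⟨le_rfl, zero_le_one⟩ (by rw [hβ0]; exact h)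
      linarith
    · have := hβi hu ⟨zero_le_one, le_rfl⟩ (by rw [hβ1]; exact h)
      linarith
  have hασ' : ∀ u ∈ Icc (0 : ℝ) 1, α u ∈ σ := fun u hu => by rw [hασ]; exact ⟨u, hu, rfl⟩
  have hβτ' : ∀ u ∈ Icc (0 : ℝ) 1, β u ∈ τ := fun u hu => by rw [hβτ]; exact ⟨u, hu, rfl⟩
  refine ⟨g, ?_, ?_, ?_, ?_, ?_⟩
  · have hI : Icc (-1 : ℝ) 1 = Icc (-1) 0 ∪ Icc 0 1 := (Icc_union_Icc_eq_Icc (by norm_num)
      (by norm_num)).symm
    rw [hI]
    refine ContinuousOn.union_of_isClosed ?_ ?_ isClosed_Icc isClosed_Icc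
    · exact (hβc.comp (by fun_prop) hm').congr fun s hs => hgneg s hs.2
    · exact (hαc.comp (by fun_prop) hm).congr fun s hs => hgpos s hs.1
  · intro s hs s' hs' hss
    rcases le_or_gt 0 s with h | h <;> rcases le_or_gt 0 s' with h' | h'
    · rw [hgpos s h, hgpos s' h'] at hss
      have := hαi (hm ⟨h, hs.2⟩) (hm ⟨h', hs'.2⟩) hss
      exact mul_left_cancel₀ hδ.ne' this
    · exfalso
      rw [hgpos s h, hgneg s' h'.le] at hss
      have hu : 0 < -(δ * s') := by nlinarith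
      have hu' : -(δ * s') ≤ δ := by nlinarith [hs'.1]
      exact hβσ _ hu hu' (hss ▸ hασ' _ (hm ⟨h, hs.2⟩))
    · exfalso
      rw [hgneg s h.le, hgpos s' h'] at hss
      have hu : 0 < -(δ * s) := by nlinarith
      have hu' : -(δ * s) ≤ δ := by nlinarith [hs.1]
      exact hβσ _ hu hu' (hss ▸ hασ' _ (hm ⟨h', hs'.2⟩))
    · rw [hgneg s h.le, hgneg s' h'.le] at hss
      have := hβi (hm' ⟨hs.1, h.le⟩) (hm' ⟨hs'.1, h'.le⟩) hss
      simp only [neg_inj] at this
      exact mul_left_cancel₀ hδ.ne' this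
  · rw [hgpos 0 le_rfl, mul_zero, hα0]
  · rintro _ ⟨s, hs, rfl⟩
    rcases le_or_gt 0 s with h | h
    · rw [hgpos s h]
      exact Or.inl (Or.inl (hασ' _ (hm ⟨h, hs.2⟩)))
    · rw [hgneg s h.le]
      exact Or.inl (Or.inr (hβτ' _ (hm' ⟨hs.1, h.le⟩)))
  · have hset : (σ ∪ τ ∪ B) \ g '' Ioo (-1) 1 = α '' Icc δ 1 ∪ β '' Icc δ 1 ∪ B := by
      ext x
      constructor
      · rintro ⟨(hx | hx) | hx, hn⟩
        · rw [hασ] at hx
          obtain ⟨u, hu, rfl⟩ := hx
          by_cases h4 : δ ≤ u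
          · exact Or.inl (Or.inl ⟨u, ⟨h4, hu.2⟩, rfl⟩)
          exfalso
          apply hn
          push Not at h4
          refine ⟨u / δ, ⟨?_, ?_⟩, ?_⟩
          · have : 0 ≤ u / δ := div_nonneg hu.1 hδ.le
            linarith
          · rw [div_lt_iff₀ hδ]; linarith
          · rw [hgpos _ (div_nonneg hu.1 hδ.le)]
            congr 1
            field_simp
        · rw [hβτ] at hx
          obtain ⟨u, hu, rfl⟩ := hx
          by_cases h4 : δ ≤ u
          · exact Or.inl (Or.inr ⟨u, ⟨h4, hu.2⟩, rfl⟩)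
          exfalso
          apply hn
          push Not at h4
          have hu0 : 0 ≤ u / δ := div_nonneg hu.1 hδ.le
          refine ⟨-(u / δ), ⟨?_, ?_⟩, ?_⟩
          · have : u / δ < 1 := by rw [div_lt_iff₀ hδ]; linarith
            linarith
          · linarith
          · rw [hgneg _ (by linarith)]
            congr 1
            field_simp
        · exact Or.inr hx
      · have hgin : ∀ s ∈ Ioo (-1 : ℝ) 1, (∃ u, 0 ≤ u ∧ u < δ ∧ g s = α u) ∨
            ∃ u, 0 < u ∧ u < δ ∧ g s = β u := by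
          intro s hs
          rcases le_or_gt 0 s with h | h
          · exact Or.inl ⟨δ * s, by positivity, by nlinarith [hs.2], hgpos s h⟩
          · exact Or.inr ⟨-(δ * s), by nlinarith, by nlinarith [hs.1], hgneg s h.le⟩
        rintro ((⟨v, hv, rfl⟩ | ⟨v, hv, rfl⟩) | hx)
        · have hv' : v ∈ Icc (0 : ℝ) 1 := ⟨by linarith [hv.1], hv.2⟩
          refine ⟨Or.inl (Or.inl (hασ' v hv')), ?_⟩
          rintro ⟨s, hs, h⟩
          rcases hgin s hs with ⟨u, hu0, hu1, hu⟩ | ⟨u, hu0, hu1, hu⟩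
          · rw [hu] at h
            have := hαi ⟨hu0, by linarith⟩ hv' h
            linarith [hv.1]
          · rw [hu] at h
            exact hβσ u hu0 hu1.le (h ▸ hασ' v hv')
        · have hv' : v ∈ Icc (0 : ℝ) 1 := ⟨by linarith [hv.1], hv.2⟩
          refine ⟨Or.inl (Or.inr (hβτ' v hv')), ?_⟩
          rintro ⟨s, hs, h⟩
          rcases hgin s hs with ⟨u, hu0, hu1, hu⟩ | ⟨u, hu0, hu1, hu⟩
          · rw [hu] at h
            rcases hu0.eq_or_lt with h0 | h0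
            · rw [← h0, hα0, ← hβ0] at h
              have := hβi ⟨le_rfl, zero_le_one⟩ hv' h
              linarith [hv.1]
            · exact hατ u h0 hu1.le (h ▸ hβτ' v hv')
          · rw [hu] at h
            have := hβi ⟨hu0.le, by linarith⟩ hv' h
            linarith [hv.1]
        · refine ⟨Or.inr hx, ?_⟩
          rintro ⟨s, hs, h⟩
          rcases hgin s hs with ⟨u, hu0, hu1, hu⟩ | ⟨u, hu0, hu1, hu⟩
          · refine hav1 u ⟨hu0, by linarith⟩ ?_ (hu ▸ h ▸ hx)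
            rw [sub_zero, abs_of_nonneg hu0]
            linarith
          · refine hav2 u ⟨hu0.le, by linarith⟩ ?_ (hu ▸ h ▸ hx)
            rw [sub_zero, abs_of_nonneg hu0.le]
            linarith
    rw [hset]
    refine (IsClosed.union ?_ ?_).union hB
    · exact (isCompact_Icc.image_of_continuousOn
        (hαc.mono (Icc_subset_Icc hδ.le le_rfl))).isClosed
    · exact (isCompact_Icc.image_of_continuousOn
        (hβc.mono (Icc_subset_Icc hδ.le le_rfl))).isClosed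

theorem arcPt_of_scc (γ B : Set X) (hγ : SCC γ) (hB : IsClosed B) (x : X) (hx : x ∈ γ \ B) :
    ArcPt (γ ∪ B) x := by
  obtain ⟨p, q, σ, τ, hσ, hτ, hστ, rfl⟩ := hγ
  obtain ⟨hx, hxB⟩ := hx
  have hclosed : ∀ {ρ : Set X} {a b : X}, IsArc ρ a b → IsClosed ρ := by
    rintro ρ a b ⟨α, hc, -, rfl, -, -⟩
    exact (isCompact_Icc.image_of_continuousOn hc).isClosed
  by_cases hxp : x = p
  · rw [hxp]
    exact arc_end hσ hτ hστ hB (hxp ▸ hxB)
  by_cases hxq : x = q
  · rw [hxq]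
    exact arc_end (isArc_symm hσ) (isArc_symm hτ) (by rw [hστ, Set.pair_comm]) hB (hxq ▸ hxB)
  have main : ∀ {σ τ : Set X}, IsArc σ p q → IsClosed τ → σ ∩ τ = {p, q} → x ∈ σ →
      ArcPt (σ ∪ τ ∪ B) x := by
    rintro σ τ ⟨α, hc, hi, hσ, h0, h1⟩ hτ hστ hxσ
    rw [hσ] at hxσ
    obtain ⟨t, ht, rfl⟩ := hxσ
    refine arc_inner hc hi hσ hτ ?_ hB ⟨?_, ?_⟩ hxB
    · rw [hστ, h0, h1]
    · refine lt_of_le_of_ne ht.1 ?_
      rintro rfl
      exact hxp h0
    · refine lt_of_le_of_ne ht.2 ?_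
      rintro rfl
      exact hxq h1
  rcases hx with hx | hx
  · exact main hσ (hclosed hτ) hστ hx
  · rw [union_comm σ τ]
    exact main hτ (hclosed hσ) (by rw [inter_comm]; exact hστ) hx

end Pool.Agent.H10.PO
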