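import Pool.Agent.H61.PO.Defs

/-!
# Part E (helper10): components of a set, the lemma of the three partners (E1)
-/

namespace Pool.Agent.H10.PO

open Set Filter Topology Pool.Agent.H61.PO

variable {X : Type*} [TopologicalSpace X]

/-- `W` is a connected component of the set `A` -/
def IsComp (A W : Set X) : Prop := ∃ p ∈ A, W = connectedComponentIn A p

theorem IsComp.sub {A W : Set X} (h : IsComp A W) : W ⊆ A := by
  obtain ⟨p, -, rfl⟩ := h
  exact connectedComponentIn_subset A p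

theorem IsComp.pre {A W : Set X} (h : IsComp A W) : IsPreconnected W := by
  obtain ⟨p, -, rfl⟩ := h
  exact isPreconnected_connectedComponentIn

theorem IsComp.nonempty {A W : Set X} (h : IsComp A W) : W.Nonempty := by
  obtain ⟨p, hp, rfl⟩ := h
  exact ⟨p, mem_connectedComponentIn hp⟩

theorem IsComp.eq_of_mem {A W : Set X} (h : IsComp A W) {p : X} (hp : p ∈ W) :
    W = connectedComponentIn A p := by
  obtain ⟨q, -, rfl⟩ := h
  exact connectedComponentIn_eq hp

theorem isComp_of {A : Set X} {p : X} (hp : p ∈ A) : IsComp A (connectedComponentIn A p) :=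
  ⟨p, hp, rfl⟩

/-- a connected subset which meets a component is contained in it -/
theorem IsComp.absorb {A W T : Set X} (h : IsComp A W) (hT : IsPreconnected T) (hTA : T ⊆ A)
    (hne : (T ∩ W).Nonempty) : T ⊆ W := by
  obtain ⟨p, hpT, hpW⟩ := hne
  rw [h.eq_of_mem hpW]
  exact hT.subset_connectedComponentIn hpT hTA

theorem IsComp.eq_of_meet {A W W' : Set X} (h : IsComp A W) (h' : IsComp A W')
    (hne : (W ∩ W').Nonempty) : W = W' := by
  obtain ⟨p, hp, hp'⟩ := hne
  rw [h.eq_of_mem hp, h'.eq_of_mem hp']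

theorem IsComp.mono {A B W : Set X} (h : IsComp A W) (hBA : B ⊆ A) (hWB : W ⊆ B) :
    IsComp B W := by
  obtain ⟨p, hp⟩ := h.nonempty
  refine ⟨p, hWB hp, Subset.antisymm ?_ ?_⟩
  · exact h.pre.subset_connectedComponentIn hp hWB
  · refine h.absorb isPreconnected_connectedComponentIn
      ((connectedComponentIn_subset B p).trans hBA) ⟨p, mem_connectedComponentIn (hWB hp), hp⟩

/-- a component is closed in the set -/
theorem IsComp.closure_inter {A W : Set X} (h : IsComp A W) : closure W ∩ A ⊆ W := by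
  rintro q ⟨hq, hqA⟩
  obtain ⟨p, hp⟩ := h.nonempty
  have hpre : IsPreconnected (insert q W) := by
    refine h.pre.subset_closure (subset_insert q W) ?_
    rintro y (rfl | hy)
    · exact hq
    · exact subset_closure hy
  refine h.absorb hpre ?_ ⟨p, mem_insert_of_mem q hp, hp⟩ (mem_insert q W)
  rintro y (rfl | hy)
  · exact hqA
  · exact h.sub hy

/-- if `A` is not connected, there is a component different from a given set -/
theorem exists_comp_ne {A : Set X} (hA : ¬ IsPreconnected A) (Q : Set X) :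
    ∃ W, IsComp A W ∧ W ≠ Q := by
  by_contra hcon
  push Not at hcon
  apply hA
  rcases A.eq_empty_or_nonempty with rfl | ⟨p, hp⟩
  · exact isPreconnected_empty
  have hQ : IsComp A Q := by
    have := hcon _ (isComp_of hp)
    rw [← this]
    exact isComp_of hp
  have hAQ : A = Q := by
    refine Subset.antisymm ?_ hQ.sub
    intro q hq
    rw [← hcon _ (isComp_of hq)]
    exact mem_connectedComponentIn hq
  rw [hAQ]
  exact hQ.pre

/-- property T5a of a space -/
def T5a (M : Type*) [TopologicalSpace M] : Prop :=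
  ∀ X : Set M, IsClosed X → ∀ x, ArcPt X x → ∀ W₁ W₂ W₃ : Set M, IsComp Xᶜ W₁ → IsComp Xᶜ W₂ →
    IsComp Xᶜ W₃ → x ∈ closure W₁ → x ∈ closure W₂ → x ∈ closure W₃ →
    W₁ = W₂ ∨ W₁ = W₃ ∨ W₂ = W₃

/-- property T5b of a space -/
def T5b (M : Type*) [TopologicalSpace M] : Prop :=
  ∀ X : Set M, IsClosed X → ∀ τ : Set M, IsPreconnected τ → τ ⊆ X → (∀ x ∈ τ, ArcPt X x) →
    (∃ O : Set M, IsOpen O ∧ τ = X ∩ O) → ∀ W : Set M, IsComp Xᶜ W →
    (closure W ∩ τ).Nonempty → τ ⊆ closure W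

/-- **E1** (three partners). -/
theorem three_partners {M : Type*} [TopologicalSpace M] (h5a : T5a M) (h5b : T5b M)
    (harc : ∀ γ B : Set M, SCC γ → IsClosed B → ∀ x ∈ γ \ B, ArcPt (γ ∪ B) x)
    {c : Fin 4 → Set M} (hcl : ∀ i, IsClosed (c i)) (hscc : ∀ i, SCC (c i))
    (hpre : ∀ i j, i ≠ j → IsPreconnected (c i \ c j))
    {W : Fin 4 → Set M} (hW : ∀ j, j ≠ 0 → IsComp (c 0 ∪ c j)ᶜ (W j))
    (hdis : ∀ j, j ≠ 0 → ∀ k, Disjoint (W j) (c k))
    (hlim0 : ∀ j, j ≠ 0 → (closure (W j) ∩ (c 0 \ c j)).Nonempty)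
    (hlimj : ∀ j, j ≠ 0 → (closure (W j) ∩ (c j \ c 0)).Nonempty)
    (hne0 : ¬ c 0 ⊆ c 1 ∪ c 2 ∪ c 3)
    (hnej : ∀ j k, j ≠ 0 → k ≠ 0 → j ≠ k → ¬ c j ⊆ c 0 ∪ c k) : False := by
  -- the closure of `W j` contains `c 0 \ c j` and `c j \ c 0`
  have key : ∀ j, j ≠ 0 → c 0 \ c j ⊆ closure (W j) ∧ c j \ c 0 ⊆ closure (W j) := by
    intro j hj
    constructor
    · refine h5b (c 0 ∪ c j) ((hcl 0).union (hcl j)) (c 0 \ c j) (hpre 0 j (Ne.symm hj))
        (fun x hx => Or.inl hx.1) (harc _ _ (hscc 0) (hcl j)) ⟨(c j)ᶜ, (hcl j).isOpen_compl, ?_⟩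
        (W j) (hW j hj) (hlim0 j hj)
      ext x
      constructor
      · rintro ⟨h1, h2⟩
        exact ⟨Or.inl h1, h2⟩
      · rintro ⟨h1 | h1, h2⟩
        · exact ⟨h1, h2⟩
        · exact absurd h1 h2
    · refine h5b (c 0 ∪ c j) ((hcl 0).union (hcl j)) (c j \ c 0) (hpre j 0 hj)
        (fun x hx => Or.inr hx.1) ?_ ⟨(c 0)ᶜ, (hcl 0).isOpen_compl, ?_⟩
        (W j) (hW j hj) (hlimj j hj)
      · intro x hx
        rw [union_comm]
        exact harc _ _ (hscc j) (hcl 0) x hx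
      ext x
      constructor
      · rintro ⟨h1, h2⟩
        exact ⟨Or.inr h1, h2⟩
      · rintro ⟨h1 | h1, h2⟩
        · exact absurd h1 h2
        · exact ⟨h1, h2⟩
  -- closure of `W j` is in `W j ∪ c 0 ∪ c j`
  have hclo : ∀ j, j ≠ 0 → closure (W j) ⊆ W j ∪ (c 0 ∪ c j) := by
    intro j hj x hx
    by_cases hxc : x ∈ c 0 ∪ c j
    · exact Or.inr hxc
    · exact Or.inl ((hW j hj).closure_inter ⟨hx, hxc⟩)
  -- they are different
  have hdiff : ∀ j k, j ≠ 0 → k ≠ 0 → j ≠ k → W j ≠ W k := by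
    intro j k hj hk hjk he
    apply hnej k j hk hj (Ne.symm hjk)
    intro x hx
    by_cases hx0 : x ∈ c 0
    · exact Or.inl hx0
    have h1 : x ∈ closure (W j) := by
      rw [he]
      exact (key k hk).2 ⟨hx, hx0⟩
    rcases hclo j hj h1 with h2 | h2 | h2
    · exact absurd hx (Set.disjoint_left.1 (hdis j hj k) h2)
    · exact Or.inl h2
    · exact Or.inr h2
  obtain ⟨x, hx0, hx⟩ := Set.not_subset.1 hne0
  have hB : IsClosed (c 1 ∪ c 2 ∪ c 3) := ((hcl 1).union (hcl 2)).union (hcl 3)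
  have hxarc := harc (c 0) (c 1 ∪ c 2 ∪ c 3) (hscc 0) hB x ⟨hx0, hx⟩
  have hcomp : ∀ j, j ≠ 0 → IsComp (c 0 ∪ (c 1 ∪ c 2 ∪ c 3))ᶜ (W j) := by
    intro j hj
    refine (hW j hj).mono ?_ ?_
    · rw [compl_subset_compl]
      rintro y (hy | hy)
      · exact Or.inl hy
      · fin_cases j
        · exact absurd rfl hj
        · exact Or.inr (Or.inl (Or.inl hy))
        · exact Or.inr (Or.inl (Or.inr hy))
        · exact Or.inr (Or.inr hy)
    · intro y hy
      rintro (h | (h | h) | h)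
      · exact Set.disjoint_left.1 (hdis j hj 0) hy h
      · exact Set.disjoint_left.1 (hdis j hj 1) hy h
      · exact Set.disjoint_left.1 (hdis j hj 2) hy h
      · exact Set.disjoint_left.1 (hdis j hj 3) hy h
  have hxcl : ∀ j, j ≠ 0 → x ∈ closure (W j) := by
    intro j hj
    refine (key j hj).1 ⟨hx0, ?_⟩
    intro h
    apply hx
    fin_cases j
    · exact absurd rfl hj
    · exact Or.inl (Or.inl h)
    · exact Or.inl (Or.inr h)
    · exact Or.inr h
  have h1 : (1 : Fin 4) ≠ 0 := by decide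
  have h2 : (2 : Fin 4) ≠ 0 := by decide
  have h3 : (3 : Fin 4) ≠ 0 := by decide
  rcases h5a _ ((hcl 0).union hB) x hxarc (W 1) (W 2) (W 3) (hcomp 1 h1) (hcomp 2 h2) (hcomp 3 h3)
    (hxcl 1 h1) (hxcl 2 h2) (hxcl 3 h3) with h | h | h
  · exact hdiff 1 2 h1 h2 (by decide) h
  · exact hdiff 1 3 h1 h3 (by decide) h
  · exact hdiff 2 3 h2 h3 (by decide) h

end Pool.Agent.H10.PO
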