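import Pool.Agent.H10.PO.LemB

/-!
# Part E (helper10): E6

Four two-dimensional convex sets `F 0, …, F 3` in a convex body `K` of dimension 6, with pairwise spans of dimension 5, such that
`F 0, F 2` span a hyperplane section of `K` which separates `F 1` from `F 3`, and `F 1, F 3` span a hyperplane section of `K` which
separates `F 0` from `F 2`: impossible.  `W = E × ℝ`, `hat x = (x, 1)`, `V i = span (hat '' F i)`, `U = ker L ∩ ker M`, `lemB`.
-/

namespace Pool.Agent.H10.PO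

open Set Filter Topology

section
variable {E : Type*} [NormedAddCommGroup E] [NormedSpace ℝ E]

/-- the lift of a point -/
def hat (x : E) : E × ℝ := (x, 1)

/-- the span of the lift of a set -/
noncomputable def lsp (F : Set E) : Submodule ℝ (E × ℝ) := Submodule.span ℝ (hat '' F)

theorem hat_mem_lsp {F : Set E} {x : E} (hx : x ∈ F) : hat x ∈ lsp F :=
  Submodule.subset_span (mem_image_of_mem _ hx)

theorem lsp_union (F G : Set E) : lsp (F ∪ G) = lsp F ⊔ lsp G := by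
  unfold lsp
  rw [image_union, Submodule.span_union]

/-- the cone over a set -/
def coneOver (C : Set E) : Set (E × ℝ) := {w | ∃ c : ℝ, 0 ≤ c ∧ ∃ x ∈ C, w = c • hat x}

theorem cone_add {C : Set E} (hC : Convex ℝ C) {v w : E × ℝ} (hv : v ∈ coneOver C)
    (hw : w ∈ coneOver C) : v + w ∈ coneOver C := by
  obtain ⟨c, hc, x, hx, rfl⟩ := hv
  obtain ⟨d, hd, y, hy, rfl⟩ := hw
  rcases (add_nonneg hc hd).lt_or_eq with h | h
  · refine ⟨c + d, h.le, (c / (c + d)) • x + (d / (c + d)) • y, ?_, ?_⟩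
    · exact hC hx hy (div_nonneg hc h.le) (div_nonneg hd h.le) (by rw [← add_div, div_self h.ne'])
    · unfold hat
      ext
      · simp only [Prod.smul_mk, Prod.mk_add_mk, smul_add, smul_smul]
        rw [mul_div_cancel₀ _ h.ne', mul_div_cancel₀ _ h.ne']
      · simp
  · have hc0 : c = 0 := by linarith
    have hd0 : d = 0 := by linarith
    refine ⟨0, le_rfl, x, hx, ?_⟩
    rw [hc0, hd0]
    simp

theorem cone_smul {C : Set E} {c : ℝ} (hc : 0 ≤ c) {x : E} (hx : x ∈ C) :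
    c • hat x ∈ coneOver C := ⟨c, hc, x, hx, rfl⟩

theorem cone_sum {C : Set E} (hC : Convex ℝ C) (hne : C.Nonempty) {ι : Type*} (s : Finset ι)
    (g : ι → E × ℝ) (hg : ∀ i ∈ s, g i ∈ coneOver C) : ∑ i ∈ s, g i ∈ coneOver C := by
  obtain ⟨x, hx⟩ := hne
  refine Finset.sum_induction g (fun w => w ∈ coneOver C) (fun a b => cone_add hC)
    ⟨0, le_rfl, x, hx, by simp⟩ hg

variable [FiniteDimensional ℝ E]

theorem finrank_lsp {F : Set E} (hF : F.Nonempty) :
    Module.finrank ℝ (lsp F) = Module.finrank ℝ (vectorSpan ℝ F) + 1 := by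
  obtain ⟨o, ho⟩ := hF
  have e1 : lsp F = (vectorSpan ℝ F).map (LinearMap.inl ℝ E ℝ) ⊔ Submodule.span ℝ {hat o} := by
    apply le_antisymm
    · unfold lsp
      rw [Submodule.span_le]
      rintro _ ⟨x, hx, rfl⟩
      have h1 : hat x = LinearMap.inl ℝ E ℝ (x -ᵥ o) + hat o := by
        unfold hat
        simp
      rw [h1]
      exact add_mem (Submodule.mem_sup_left (Submodule.mem_map_of_mem
        (vsub_mem_vectorSpan ℝ hx ho)))
        (Submodule.mem_sup_right (Submodule.mem_span_singleton_self _))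
    · refine sup_le ?_ ?_
      · rw [Submodule.map_le_iff_le_comap, vectorSpan_def, Submodule.span_le]
        rintro _ ⟨x, hx, y, hy, rfl⟩
        have h1 : LinearMap.inl ℝ E ℝ (x -ᵥ y) = hat x - hat y := by
          unfold hat
          simp
        show LinearMap.inl ℝ E ℝ (x -ᵥ y) ∈ lsp F
        rw [h1]
        exact sub_mem (hat_mem_lsp hx) (hat_mem_lsp hy)
      · rw [Submodule.span_singleton_le_iff_mem]
        exact hat_mem_lsp ho
  have e2 : (vectorSpan ℝ F).map (LinearMap.inl ℝ E ℝ) ⊓ Submodule.span ℝ {hat o} = ⊥ := by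
    rw [eq_bot_iff]
    rintro w ⟨⟨v, -, hv⟩, hw⟩
    obtain ⟨c, hc⟩ := Submodule.mem_span_singleton.1 hw
    have h1 : w.2 = 0 := by
      rw [← hv]
      rfl
    have h2 : w.2 = c := by
      rw [← hc]
      simp [hat]
    have h3 : c = 0 := by rw [← h2, h1]
    rw [← hc, h3]
    simp
  have e3 := Submodule.finrank_sup_add_finrank_inf_eq
    ((vectorSpan ℝ F).map (LinearMap.inl ℝ E ℝ)) (Submodule.span ℝ {hat o})
  rw [e2, finrank_bot, add_zero, ← e1] at e3
  rw [e3]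
  congr 1
  · exact LinearEquiv.finrank_eq
      (Submodule.equivMapOfInjective (LinearMap.inl ℝ E ℝ) LinearMap.inl_injective _).symm
  · apply finrank_span_singleton
    intro h
    have := congrArg Prod.snd h
    simp [hat] at this

/-- interior points of the cone over a convex set -/
theorem cone_int {C : Set E} (hC : Convex ℝ C) (hne : C.Nonempty) :
    ∃ w ∈ lsp C, ∃ r : ℝ, 0 < r ∧ ∀ u ∈ lsp C, ‖u‖ ≤ r → w + u ∈ coneOver C := by
  classical
  obtain ⟨b, hbS, hbsp, hbi⟩ := exists_linearIndependent ℝ (hat '' C)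
  have hfin : b.Finite := hbi.setFinite
  have := hfin.fintype
  let T : (b → ℝ) →ₗ[ℝ] (E × ℝ) := Fintype.linearCombination ℝ (fun k : b => (k : E × ℝ))
  have hT : LinearMap.range T = lsp C := by
    show LinearMap.range (Fintype.linearCombination ℝ _) = _
    rw [Fintype.range_linearCombination, Subtype.range_coe]
    exact hbsp
  have hTm : ∀ d, T d ∈ lsp C := fun d => by
    rw [← hT]
    exact ⟨d, rfl⟩
  let T' : (b → ℝ) →ₗ[ℝ] lsp C := T.codRestrict _ hTm
  have hsurj : Function.Surjective T' := by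
    rintro ⟨w, hw⟩
    rw [← hT] at hw
    obtain ⟨d, hd⟩ := hw
    exact ⟨d, Subtype.ext hd⟩
  have hopen := T'.isOpenMap_of_finiteDimensional hsurj
  have hP : IsOpen {d : b → ℝ | ∀ k, 0 < d k} := by
    have : {d : b → ℝ | ∀ k, 0 < d k} = ⋂ k, {d : b → ℝ | 0 < d k} := by
      ext d
      simp
    rw [this]
    exact isOpen_iInter_of_finite fun k => isOpen_lt continuous_const (continuous_apply k)
  have hO := hopen _ hP
  have h1 : T' (fun _ => 1) ∈ T' '' {d : b → ℝ | ∀ k, 0 < d k} :=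
    mem_image_of_mem _ fun k => one_pos
  obtain ⟨ε, hε, hball⟩ := Metric.isOpen_iff.1 hO _ h1
  refine ⟨T (fun _ => 1), hTm _, ε / 2, half_pos hε, ?_⟩
  intro u hu hur
  have h2 : T' (fun _ => 1) + ⟨u, hu⟩ ∈ Metric.ball (T' (fun _ => 1)) ε := by
    rw [mem_ball_iff_norm, add_sub_cancel_left]
    have : ‖(⟨u, hu⟩ : lsp C)‖ = ‖u‖ := rfl
    rw [this]
    linarith
  obtain ⟨d, hd, hdw⟩ := hball h2
  have h3 : T (fun _ => 1) + u = T d := (congrArg Subtype.val hdw).symm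
  rw [h3]
  show Fintype.linearCombination ℝ (fun k : b => (k : E × ℝ)) d ∈ coneOver C
  rw [Fintype.linearCombination_apply]
  apply cone_sum hC hne
  intro k _
  obtain ⟨x, hx, hxk⟩ := hbS k.2
  show d k • (k : E × ℝ) ∈ coneOver C
  rw [← hxk]
  exact cone_smul (hd k).le hx

omit [FiniteDimensional ℝ E] in
/-- a point of the convex hull of the union of two convex sets -/
theorem mem_join {F G : Set E} (hF : Convex ℝ F) (hG : Convex ℝ G) (hFn : F.Nonempty)
    (hGn : G.Nonempty) {a : E} (ha : a ∈ convexHull ℝ (F ∪ G)) :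
    ∃ (c d : ℝ) (x y : E), 0 ≤ c ∧ 0 ≤ d ∧ x ∈ F ∧ y ∈ G ∧ hat a = c • hat x + d • hat y := by
  rw [hF.convexHull_union hG hFn hGn, mem_convexJoin] at ha
  obtain ⟨x, hx, y, hy, c, d, hc, hd, hcd, rfl⟩ := ha
  refine ⟨c, d, x, y, hc, hd, hx, hy, ?_⟩
  unfold hat
  ext
  · simp
  · simp [hcd]

/-- decomposition of the functionals -/
theorem dec {F G : Set E} (hF : Convex ℝ F) (hG : Convex ℝ G) (hFn : F.Nonempty)
    (hGn : G.Nonempty) (hFG : lsp F ⊓ lsp G = ⊥) (M : (E × ℝ) →ₗ[ℝ] ℝ)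
    (hMF : ∀ x ∈ F, 0 < M (hat x)) (hMG : ∀ x ∈ G, M (hat x) < 0) (A : Set E)
    (hA : A ⊆ convexHull ℝ (F ∪ G)) (hA0 : ∀ x ∈ convexHull ℝ (F ∪ G), M (hat x) = 0 → x ∈ A)
    (φ : (E × ℝ) →ₗ[ℝ] ℝ) (hφ : ∀ a ∈ A, 0 ≤ φ (hat a)) :
    ∃ ψF ψG : (E × ℝ) →ₗ[ℝ] ℝ, (∀ w, M w = 0 → φ w = ψF w + ψG w) ∧
      (∀ a ∈ A, 0 ≤ ψF (hat a)) ∧ (∀ a ∈ A, 0 ≤ ψG (hat a)) ∧ (∀ v ∈ lsp F, ψF v = 0) ∧
      (∀ v ∈ lsp G, ψG v = 0) := by
  obtain ⟨x0, hx0⟩ := hFn
  obtain ⟨y0, hy0⟩ := hGn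
  -- the separating number
  obtain ⟨κ, hκ1, hκ2⟩ : ∃ κ : ℝ, (∀ x ∈ F, κ * M (hat x) ≤ φ (hat x)) ∧
      ∀ y ∈ G, κ * M (hat y) ≤ φ (hat y) := by
    have key : ∀ x ∈ F, ∀ y ∈ G, φ (hat y) / M (hat y) ≤ φ (hat x) / M (hat x) := by
      intro x hx y hy
      have hp := hMF x hx
      have hn := hMG y hy
      have hs : 0 < M (hat x) - M (hat y) := by linarith
      set c := (-M (hat y)) / (M (hat x) - M (hat y)) with hc
      set d := M (hat x) / (M (hat x) - M (hat y)) with hd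
      have hc0 : 0 ≤ c := div_nonneg (by linarith) hs.le
      have hd0 : 0 ≤ d := div_nonneg hp.le hs.le
      have hcd : c + d = 1 := by
        rw [hc, hd, ← add_div, neg_add_eq_sub, div_self hs.ne']
      have hz : hat (c • x + d • y) = c • hat x + d • hat y := by
        unfold hat
        ext
        · simp
        · simp [hcd]
      have hMz : M (hat (c • x + d • y)) = 0 := by
        rw [hz, map_add, map_smul, map_smul, smul_eq_mul, smul_eq_mul, hc, hd]
        field_simp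
        ring
      have hxC : x ∈ convexHull ℝ (F ∪ G) := subset_convexHull ℝ _ (Or.inl hx)
      have hyC : y ∈ convexHull ℝ (F ∪ G) := subset_convexHull ℝ _ (Or.inr hy)
      have hzC : c • x + d • y ∈ convexHull ℝ (F ∪ G) :=
        (convex_convexHull ℝ (F ∪ G)) hxC hyC hc0 hd0 hcd
      have hzA : c • x + d • y ∈ A := hA0 _ hzC hMz
      have h1 := hφ _ hzA
      rw [hz, map_add, map_smul, map_smul, smul_eq_mul, smul_eq_mul, hc, hd, div_mul_eq_mul_div,
        div_mul_eq_mul_div, ← add_div] at h1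
      have h2 : 0 ≤ -M (hat y) * φ (hat x) + M (hat x) * φ (hat y) := by
        by_contra hcon
        push Not at hcon
        exact absurd h1 (not_le.2 (div_neg_of_neg_of_pos hcon hs))
      have h3 : φ (hat y) / M (hat y) = (-φ (hat y)) / (-M (hat y)) := by rw [neg_div_neg_eq]
      rw [h3, div_le_div_iff₀ (by linarith) hp]
      linarith
    have hbdd : BddAbove ((fun y => φ (hat y) / M (hat y)) '' G) := by
      refine ⟨φ (hat x0) / M (hat x0), ?_⟩
      rintro _ ⟨y, hy, rfl⟩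
      exact key x0 hx0 y hy
    refine ⟨sSup ((fun y => φ (hat y) / M (hat y)) '' G), ?_, ?_⟩
    · intro x hx
      rw [← le_div_iff₀ (hMF x hx)]
      refine csSup_le ⟨_, mem_image_of_mem _ hy0⟩ ?_
      rintro _ ⟨y, hy, rfl⟩
      exact key x hx y hy
    · intro y hy
      have h1 : φ (hat y) / M (hat y) ≤ sSup ((fun y => φ (hat y) / M (hat y)) '' G) :=
        le_csSup hbdd (mem_image_of_mem _ hy)
      have hn := hMG y hy
      rwa [div_le_iff_of_neg hn] at h1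
  -- projections
  obtain ⟨G', hGG', hcompl⟩ := (disjoint_iff.2 hFG).exists_isCompl
  set φ' : (E × ℝ) →ₗ[ℝ] ℝ := φ - κ • M with hφ'
  have hφF : ∀ x ∈ F, 0 ≤ φ' (hat x) := by
    intro x hx
    have := hκ1 x hx
    simp only [hφ', LinearMap.sub_apply, LinearMap.smul_apply, smul_eq_mul]
    linarith
  have hφG : ∀ x ∈ G, 0 ≤ φ' (hat x) := by
    intro x hx
    have := hκ2 x hx
    simp only [hφ', LinearMap.sub_apply, LinearMap.smul_apply, smul_eq_mul]
    linarith
  set π : (E × ℝ) →ₗ[ℝ] (E × ℝ) := (lsp G).projection G' hcompl.symm with hπ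
  have hπG : ∀ v ∈ lsp G, π v = v := by
    intro v hv
    rw [hπ, Submodule.projection_apply]
    rw [Submodule.projectionOnto_apply_of_mem_left hcompl.symm hv]
  have hπF : ∀ v ∈ lsp F, π v = 0 := by
    intro v hv
    rw [hπ, Submodule.projection_apply]
    rw [(Submodule.projectionOnto_apply_eq_zero_iff hcompl.symm).2 (hGG' hv)]
    rfl
  refine ⟨φ' ∘ₗ π, φ' - φ' ∘ₗ π, ?_, ?_, ?_, ?_, ?_⟩
  · intro w hw
    simp only [hφ', LinearMap.sub_apply, LinearMap.smul_apply, smul_eq_mul, hw,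
      LinearMap.comp_apply]
    ring
  · intro a ha
    obtain ⟨c, d, x, y, hc, hd, hx, hy, hxy⟩ := mem_join hF hG ⟨x0, hx0⟩ ⟨y0, hy0⟩ (hA ha)
    rw [hxy]
    simp only [LinearMap.comp_apply, map_add, map_smul, smul_eq_mul]
    rw [hπF _ (hat_mem_lsp hx), hπG _ (hat_mem_lsp hy), map_zero]
    have := mul_nonneg hd (hφG y hy)
    linarith
  · intro a ha
    obtain ⟨c, d, x, y, hc, hd, hx, hy, hxy⟩ := mem_join hF hG ⟨x0, hx0⟩ ⟨y0, hy0⟩ (hA ha)
    rw [hxy]
    simp only [LinearMap.sub_apply, LinearMap.comp_apply, map_add, map_smul, smul_eq_mul]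
    rw [hπF _ (hat_mem_lsp hx), hπG _ (hat_mem_lsp hy), map_zero]
    have := mul_nonneg hc (hφF x hx)
    linarith
  · intro v hv
    simp only [LinearMap.comp_apply]
    rw [hπF v hv, map_zero]
  · intro v hv
    simp only [LinearMap.sub_apply, LinearMap.comp_apply]
    rw [hπG v hv, sub_self]

/-- **E6** -/
theorem e6_main (h6 : Module.finrank ℝ E = 6) {K : Set E} (hKc : Convex ℝ K)
    (hKb : Bornology.IsBounded K) (F : Fin 4 → Set E) (hFc : ∀ i, Convex ℝ (F i))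
    (hFn : ∀ i, (F i).Nonempty) (hFK : ∀ i, F i ⊆ K)
    (hF2 : ∀ i, Module.finrank ℝ (vectorSpan ℝ (F i)) = 2)
    (hF5 : ∀ i j, i ≠ j → Module.finrank ℝ (vectorSpan ℝ (F i ∪ F j)) = 5)
    (ell m : E →L[ℝ] ℝ) (s t : ℝ)
    (h02 : ∀ x ∈ F 0 ∪ F 2, ell x = s) (k02 : ∀ x ∈ K, ell x = s → x ∈ convexHull ℝ (F 0 ∪ F 2))
    (h13 : ∀ x ∈ F 1 ∪ F 3, m x = t) (k13 : ∀ x ∈ K, m x = t → x ∈ convexHull ℝ (F 1 ∪ F 3))
    (p1 : ∀ x ∈ F 1, s < ell x) (p3 : ∀ x ∈ F 3, ell x < s)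
    (p0 : ∀ x ∈ F 0, t < m x) (p2 : ∀ x ∈ F 2, m x < t) : False := by
  classical
  -- the spans
  have fV : ∀ i, Module.finrank ℝ (lsp (F i)) = 3 := fun i => by
    rw [finrank_lsp (hFn i), hF2]
  have fVV : ∀ i j, i ≠ j → Module.finrank ℝ (lsp (F i) ⊔ lsp (F j) : Submodule ℝ (E × ℝ)) = 6 := by
    intro i j hij
    rw [← lsp_union, finrank_lsp ((hFn i).mono subset_union_left), hF5 i j hij]
  have dis : ∀ i j, i ≠ j → lsp (F i) ⊓ lsp (F j) = ⊥ := by
    intro i j hij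
    have := Submodule.finrank_sup_add_finrank_inf_eq (lsp (F i)) (lsp (F j))
    rw [fVV i j hij, fV, fV] at this
    exact Submodule.finrank_eq_zero.1 (by omega)
  have fW : Module.finrank ℝ (E × ℝ) = 7 := by
    rw [Module.finrank_prod, h6, Module.finrank_self]
  -- the functionals
  set L : (E × ℝ) →ₗ[ℝ] ℝ := (ell : E →ₗ[ℝ] ℝ) ∘ₗ LinearMap.fst ℝ E ℝ - s • LinearMap.snd ℝ E ℝ with hL
  set M : (E × ℝ) →ₗ[ℝ] ℝ := (m : E →ₗ[ℝ] ℝ) ∘ₗ LinearMap.fst ℝ E ℝ - t • LinearMap.snd ℝ E ℝ with hM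
  have Lhat : ∀ x, L (hat x) = ell x - s := fun x => by simp [hL, hat]
  have Mhat : ∀ x, M (hat x) = m x - t := fun x => by simp [hM, hat]
  obtain ⟨x0, hx0⟩ := hFn 0
  obtain ⟨x1, hx1⟩ := hFn 1
  obtain ⟨x2, hx2⟩ := hFn 2
  obtain ⟨x3, hx3⟩ := hFn 3
  have hL0 : L ≠ 0 := by
    intro h
    have h1 := Lhat x1
    rw [h] at h1
    have := p1 x1 hx1
    simp at h1
    linarith
  have hM0 : M ≠ 0 := by
    intro h
    have h1 := Mhat x0
    rw [h] at h1
    have := p0 x0 hx0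
    simp at h1
    linarith
  have fL : Module.finrank ℝ (LinearMap.ker L) = 6 := by
    have := Module.Dual.finrank_ker_add_one_of_ne_zero (f := L) hL0
    rw [fW] at this
    omega
  have fM : Module.finrank ℝ (LinearMap.ker M) = 6 := by
    have := Module.Dual.finrank_ker_add_one_of_ne_zero (f := M) hM0
    rw [fW] at this
    omega
  have le02 : lsp (F 0 ∪ F 2) ≤ LinearMap.ker L := by
    unfold lsp
    rw [Submodule.span_le]
    rintro _ ⟨x, hx, rfl⟩
    show L (hat x) = 0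
    rw [Lhat, h02 x hx, sub_self]
  have eq02 : lsp (F 0 ∪ F 2) = LinearMap.ker L := by
    apply Submodule.eq_of_le_of_finrank_eq le02
    rw [lsp_union, fVV 0 2 (by decide), fL]
  -- `U`
  set U : Submodule ℝ (E × ℝ) := LinearMap.ker L ⊓ LinearMap.ker M with hU
  have fcut : ∀ (V : Submodule ℝ (E × ℝ)) (k : ℕ), Module.finrank ℝ V = k + 1 →
      ∀ g : (E × ℝ) →ₗ[ℝ] ℝ, Module.finrank ℝ (LinearMap.ker g) = 6 →
      k ≤ Module.finrank ℝ (V ⊓ LinearMap.ker g : Submodule ℝ (E × ℝ)) := by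
    intro V k hk g hg
    have h1 := Submodule.finrank_sup_add_finrank_inf_eq V (LinearMap.ker g)
    have h2 := Submodule.finrank_le (V ⊔ LinearMap.ker g)
    rw [fW] at h2
    omega
  have fU5 : 5 ≤ Module.finrank ℝ U := fcut _ 5 fL M fM
  have fU5' : Module.finrank ℝ U ≤ 5 := by
    have hlt : U < LinearMap.ker M := by
      refine lt_of_le_of_ne inf_le_right ?_
      intro he
      have h1 : hat x1 ∈ LinearMap.ker M := by
        show M (hat x1) = 0
        rw [Mhat, h13 x1 (Or.inl hx1), sub_self]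
      rw [← he] at h1
      have h2 : L (hat x1) = 0 := h1.1
      rw [Lhat] at h2
      have := p1 x1 hx1
      linarith
    have := Submodule.finrank_lt_finrank_of_lt hlt
    omega
  -- the section
  set A : Set E := {x | x ∈ K ∧ ell x = s ∧ m x = t} with hA
  have hC02 : convexHull ℝ (F 0 ∪ F 2) ⊆ {x | x ∈ K ∧ ell x = s} := by
    apply convexHull_min
    · intro x hx
      refine ⟨?_, h02 x hx⟩
      rcases hx with hx | hx
      · exact hFK 0 hx
      · exact hFK 2 hx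
    · apply hKc.inter
      exact convex_hyperplane ell.toLinearMap.isLinear s
  have hC13 : convexHull ℝ (F 1 ∪ F 3) ⊆ {x | x ∈ K ∧ m x = t} := by
    apply convexHull_min
    · intro x hx
      refine ⟨?_, h13 x hx⟩
      rcases hx with hx | hx
      · exact hFK 1 hx
      · exact hFK 3 hx
    · apply hKc.inter
      exact convex_hyperplane m.toLinearMap.isLinear t
  have dec02 := fun φ hφ => dec (hFc 0) (hFc 2) ⟨x0, hx0⟩ ⟨x2, hx2⟩ (dis 0 2 (by decide)) M
    (fun x hx => by rw [Mhat]; linarith [p0 x hx]) (fun x hx => by rw [Mhat]; linarith [p2 x hx])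
    A (fun x hx => k02 x hx.1 hx.2.1) (fun x hx h0 => by
      rw [Mhat] at h0
      exact ⟨(hC02 hx).1, (hC02 hx).2, by linarith⟩) φ hφ
  have dec13 := fun φ hφ => dec (hFc 1) (hFc 3) ⟨x1, hx1⟩ ⟨x3, hx3⟩ (dis 1 3 (by decide)) L
    (fun x hx => by rw [Lhat]; linarith [p1 x hx]) (fun x hx => by rw [Lhat]; linarith [p3 x hx])
    A (fun x hx => k13 x hx.1 hx.2.2) (fun x hx h0 => by
      rw [Lhat] at h0
      exact ⟨(hC13 hx).1, by linarith, (hC13 hx).2⟩) φ hφ
  -- a point of `A`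
  obtain ⟨a0, ha0⟩ : A.Nonempty := by
    have hs : 0 < m x0 - m x2 := by linarith [p0 x0 hx0, p2 x2 hx2]
    have hc0 : 0 ≤ (t - m x2) / (m x0 - m x2) := div_nonneg (by linarith [p2 x2 hx2]) hs.le
    have hd0 : 0 ≤ (m x0 - t) / (m x0 - m x2) := div_nonneg (by linarith [p0 x0 hx0]) hs.le
    have hcd : (t - m x2) / (m x0 - m x2) + (m x0 - t) / (m x0 - m x2) = 1 := by
      rw [← add_div, div_eq_one_iff_eq hs.ne']
      ring
    have hx0C : x0 ∈ convexHull ℝ (F 0 ∪ F 2) := subset_convexHull ℝ _ (Or.inl hx0)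
    have hx2C : x2 ∈ convexHull ℝ (F 0 ∪ F 2) := subset_convexHull ℝ _ (Or.inr hx2)
    have hz := (convex_convexHull ℝ (F 0 ∪ F 2)) hx0C hx2C hc0 hd0 hcd
    refine ⟨_, (hC02 hz).1, (hC02 hz).2, ?_⟩
    rw [map_add, map_smul, map_smul, smul_eq_mul, smul_eq_mul]
    field_simp
    ring
  -- the interior point
  obtain ⟨w, hwU, r, hr, hint⟩ : ∃ w ∈ U, ∃ r : ℝ, 0 < r ∧ ∀ u ∈ U, ‖u‖ ≤ r →
      w + u ∈ coneOver (convexHull ℝ (F 0 ∪ F 2)) := by
    have hCc := convex_convexHull ℝ (F 0 ∪ F 2)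
    have hx0C : x0 ∈ convexHull ℝ (F 0 ∪ F 2) := subset_convexHull ℝ _ (Or.inl hx0)
    have hx2C : x2 ∈ convexHull ℝ (F 0 ∪ F 2) := subset_convexHull ℝ _ (Or.inr hx2)
    obtain ⟨w, hw, r, hr, hwr⟩ := cone_int hCc ⟨x0, hx0C⟩
    have hUC : U ≤ lsp (convexHull ℝ (F 0 ∪ F 2)) := by
      refine inf_le_left.trans ?_
      rw [← eq02]
      exact Submodule.span_mono (image_mono (subset_convexHull ℝ _))
    have hCL : lsp (convexHull ℝ (F 0 ∪ F 2)) ≤ LinearMap.ker L := by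
      unfold lsp
      rw [Submodule.span_le]
      rintro _ ⟨x, hx, rfl⟩
      show L (hat x) = 0
      rw [Lhat, (hC02 hx).2, sub_self]
    -- the correction
    obtain ⟨c, hc, v, hv, hcv⟩ : ∃ c : ℝ, 0 ≤ c ∧ ∃ v ∈ convexHull ℝ (F 0 ∪ F 2),
        M (w + c • hat v) = 0 := by
      rcases le_or_gt 0 (M w) with h | h
      · refine ⟨M w / (t - m x2), div_nonneg h (by linarith [p2 x2 hx2]), x2, hx2C, ?_⟩
        have : t - m x2 ≠ 0 := by
          have := p2 x2 hx2
          intro h0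
          linarith
        rw [map_add, map_smul, smul_eq_mul, Mhat]
        field_simp
        ring
      · refine ⟨-M w / (m x0 - t), div_nonneg (by linarith) (by linarith [p0 x0 hx0]), x0, hx0C, ?_⟩
        have : m x0 - t ≠ 0 := by
          have := p0 x0 hx0
          intro h0
          linarith
        rw [map_add, map_smul, smul_eq_mul, Mhat]
        field_simp
        ring
    refine ⟨w + c • hat v, ⟨?_, hcv⟩, r, hr, ?_⟩
    · exact hCL (add_mem hw (Submodule.smul_mem _ _ (hat_mem_lsp hv)))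
    · intro u hu hur
      have h1 := hwr u (hUC hu) hur
      have h2 := cone_add hCc h1 (cone_smul hc hv)
      rwa [add_right_comm] at h2
  -- apply the abstract lemma
  obtain ⟨R, hR⟩ := hKb.exists_norm_le
  let idx : Fin 2 → Fin 2 → Fin 4 := ![![0, 2], ![1, 3]]
  have hres : ∀ φ : (E × ℝ) →ₗ[ℝ] ℝ, ∃ χ : U →L[ℝ] ℝ, ∀ u : U, χ u = φ u := fun φ =>
    ⟨LinearMap.toContinuousLinearMap (φ ∘ₗ U.subtype), fun u => rfl⟩
  have hextd : ∀ χ : U →L[ℝ] ℝ, ∃ φ : (E × ℝ) →ₗ[ℝ] ℝ, ∀ u : U, φ u = χ u := fun χ => by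
    obtain ⟨g, hg⟩ := LinearMap.exists_extend (χ : U →ₗ[ℝ] ℝ)
    exact ⟨g, fun u => congrArg (fun k => k u) hg⟩
  have hatU : ∀ a ∈ A, hat a ∈ U := fun a ha => by
    constructor
    · show L (hat a) = 0
      rw [Lhat, ha.2.1, sub_self]
    · show M (hat a) = 0
      rw [Mhat, ha.2.2, sub_self]
  obtain ⟨h, hh⟩ := hres (LinearMap.snd ℝ E ℝ)
  have hdecg : ∀ (p : Fin 2) (φ : (E × ℝ) →ₗ[ℝ] ℝ), (∀ a ∈ A, 0 ≤ φ (hat a)) →
      ∃ ψF ψG : (E × ℝ) →ₗ[ℝ] ℝ, (∀ w ∈ U, φ w = ψF w + ψG w) ∧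
      (∀ a ∈ A, 0 ≤ ψF (hat a)) ∧ (∀ a ∈ A, 0 ≤ ψG (hat a)) ∧ (∀ v ∈ lsp (F (idx p 0)), ψF v = 0) ∧
      (∀ v ∈ lsp (F (idx p 1)), ψG v = 0) := by
    intro p φ hφ
    fin_cases p
    · obtain ⟨ψF, ψG, h1, h2, h3, h4, h5⟩ := dec02 φ hφ
      exact ⟨ψF, ψG, fun w hw => h1 w hw.2, h2, h3, h4, h5⟩
    · obtain ⟨ψF, ψG, h1, h2, h3, h4, h5⟩ := dec13 φ hφ
      exact ⟨ψF, ψG, fun w hw => h1 w hw.1, h2, h3, h4, h5⟩
  refine lemB (U := U) fU5 {u : U | ∃ a ∈ A, (u : E × ℝ) = hat a} ?_ h ?_ ⟨w, hwU⟩ ?_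
    (fun p i => (lsp (F (idx p i))).comap U.subtype) ?_ ?_
  · refine ⟨max R 1, ?_⟩
    rintro u ⟨a, ha, hu⟩
    have : ‖u‖ = ‖hat a‖ := by
      rw [← hu]
      rfl
    rw [this]
    show max ‖a‖ ‖(1 : ℝ)‖ ≤ max R 1
    rw [norm_one]
    exact max_le_max (hR a ha.1) le_rfl
  · rintro u ⟨a, ha, hu⟩
    rw [hh, hu]
    rfl
  · refine ⟨r, hr, ?_⟩
    intro u hu
    obtain ⟨c, hc, x, hx, hwx⟩ := hint (u : E × ℝ) u.2 hu
    rcases hc.lt_or_eq with hc' | hc'
    · have hwuU : w + (u : E × ℝ) ∈ U := add_mem hwU u.2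
      have hxA : x ∈ A := by
        refine ⟨(hC02 hx).1, (hC02 hx).2, ?_⟩
        have h1 : M (w + (u : E × ℝ)) = 0 := hwuU.2
        rw [hwx, map_smul, Mhat, smul_eq_mul] at h1
        rcases mul_eq_zero.1 h1 with h2 | h2
        · exact absurd h2 hc'.ne'
        · linarith
      refine ⟨c, hc, ⟨hat x, hatU x hxA⟩, ⟨x, hxA, rfl⟩, ?_⟩
      apply Subtype.ext
      exact hwx
    · refine ⟨0, le_rfl, ⟨hat a0, hatU a0 ha0⟩, ⟨a0, ha0, rfl⟩, ?_⟩
      apply Subtype.ext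
      show w + (u : E × ℝ) = (0 : ℝ) • hat a0
      rw [hwx, ← hc', zero_smul, zero_smul]
  · intro p χ hχ
    obtain ⟨φ, hφ⟩ := hextd χ
    obtain ⟨ψF, ψG, h1, h2, h3, h4, h5⟩ := hdecg p φ (fun a ha => by
      have h1 := hφ ⟨hat a, hatU a ha⟩
      have h2 := hχ ⟨hat a, hatU a ha⟩ ⟨a, ha, rfl⟩
      rw [← h1] at h2
      exact h2)
    obtain ⟨χF, hχF⟩ := hres ψF
    obtain ⟨χG, hχG⟩ := hres ψG
    refine ⟨![χF, χG], ?_, ?_⟩
    · ext u
      show χ u = χF u + χG u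
      rw [hχF, hχG, ← hφ]
      exact h1 _ u.2
    · intro i
      fin_cases i
      · refine ⟨?_, ?_⟩
        · rintro u ⟨a, ha, hu⟩
          show 0 ≤ χF u
          rw [hχF, hu]
          exact h2 a ha
        · intro n hn
          show χF n = 0
          rw [hχF]
          exact h4 _ hn
      · refine ⟨?_, ?_⟩
        · rintro u ⟨a, ha, hu⟩
          show 0 ≤ χG u
          rw [hχG, hu]
          exact h3 a ha
        · intro n hn
          show χG n = 0
          rw [hχG]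
          exact h5 _ hn
  · intro i j
    have hij : idx 0 i ≠ idx 1 j := by
      fin_cases i <;> fin_cases j <;> decide
    have hfc : ∀ V : Submodule ℝ (E × ℝ), Module.finrank ℝ (V.comap U.subtype) =
        Module.finrank ℝ (U ⊓ V : Submodule ℝ (E × ℝ)) := by
      intro V
      rw [← Submodule.map_comap_subtype]
      exact (Submodule.finrank_map_subtype_eq U _).symm
    have hN2 : ∀ k : Fin 4, 2 ≤ Module.finrank ℝ ((lsp (F k)).comap U.subtype) := by
      intro k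
      rw [hfc]
      -- `V k` is contained in one of the kernels
      have hcase : lsp (F k) ≤ LinearMap.ker L ∨ lsp (F k) ≤ LinearMap.ker M := by
        have hkL : ∀ x ∈ F 0 ∪ F 2, L (hat x) = 0 := fun x hx => by rw [Lhat, h02 x hx, sub_self]
        have hkM : ∀ x ∈ F 1 ∪ F 3, M (hat x) = 0 := fun x hx => by rw [Mhat, h13 x hx, sub_self]
        unfold lsp
        rw [Submodule.span_le, Submodule.span_le]
        fin_cases k
        · left
          rintro _ ⟨x, hx, rfl⟩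
          exact hkL x (Or.inl hx)
        · right
          rintro _ ⟨x, hx, rfl⟩
          exact hkM x (Or.inl hx)
        · left
          rintro _ ⟨x, hx, rfl⟩
          exact hkL x (Or.inr hx)
        · right
          rintro _ ⟨x, hx, rfl⟩
          exact hkM x (Or.inr hx)
      rcases hcase with hc | hc
      · refine (fcut _ 2 (fV k) M fM).trans ?_
        exact Submodule.finrank_mono (fun v hv => ⟨⟨hc hv.1, hv.2⟩, hv.1⟩)
      · refine (fcut _ 2 (fV k) L fL).trans ?_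
        exact Submodule.finrank_mono (fun v hv => ⟨⟨hv.2, hc hv.1⟩, hv.1⟩)
    have h1 := Submodule.finrank_sup_add_finrank_inf_eq ((lsp (F (idx 0 i))).comap U.subtype)
      ((lsp (F (idx 1 j))).comap U.subtype)
    have h2 : Module.finrank ℝ (((lsp (F (idx 0 i))).comap U.subtype) ⊓
      ((lsp (F (idx 1 j))).comap U.subtype) : Submodule ℝ U) = 0 := by
      rw [← Submodule.comap_inf, dis _ _ hij, hfc, inf_bot_eq, finrank_bot]
    have h3 := hN2 (idx 0 i)
    have h4 := hN2 (idx 1 j)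
    omega

end

end Pool.Agent.H10.PO
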