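import Pool.Agent.H10.PO.Sel

/-!
# Part E (helper10): pairs in hyperplanes (E5) and finiteness of the set of essential 2-faces
-/

namespace Pool.Agent.H10.PO

open Set Filter Topology Pool.Agent.H61.PO

namespace Sys

variable {M E : Type*} [TopologicalSpace M] [NormedAddCommGroup E] [NormedSpace ℝ E] (S : Sys M E)

/-- data of a pair which is not flat -/
def HypD (F G : Set E) (ell : E →L[ℝ] ℝ) (t : ℝ) (U V : Set M) : Prop :=
  IsComp (S.c F ∪ S.c G)ᶜ U ∧ IsComp (S.c F ∪ S.c G)ᶜ V ∧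
      U ≠ V ∧ (∀ p ∈ U, t ≤ ell (S.f p)) ∧ (∀ p ∈ V, ell (S.f p) ≤ t) ∧
      (∀ p, S.f p ∈ S.ext → S.f p ∉ F → S.f p ∉ G → ell (S.f p) ≠ t ∧ (p ∈ U ∨ p ∈ V)) ∧
      (∀ x ∈ F ∪ G, ell x = t) ∧ (∀ x ∈ S.K, ell x = t → x ∈ convexHull ℝ (F ∪ G)) ∧
      (Module.finrank ℝ (vectorSpan ℝ (F ∪ G)) = 5 ∧ Module.finrank ℝ E = 6)

theorem HypD.neg {F G : Set E} {ell : E →L[ℝ] ℝ} {t : ℝ} {U V : Set M}
    (h : S.HypD F G ell t U V) : S.HypD F G (-ell) (-t) V U := by
  obtain ⟨h1, h2, h3, h4, h5, h6, h7, h8, h9⟩ := h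
  refine ⟨h2, h1, h3.symm, fun p hp => ?_, fun p hp => ?_, fun p a b c => ?_, fun x hx => ?_,
    fun x hx hxt => h8 x hx ?_, h9⟩
  · show -t ≤ -(ell (S.f p))
    exact neg_le_neg (h5 p hp)
  · show -(ell (S.f p)) ≤ -t
    exact neg_le_neg (h4 p hp)
  · obtain ⟨k1, k2⟩ := h6 p a b c
    refine ⟨fun h => k1 (neg_injective h), k2.symm⟩
  · show -(ell x) = -t
    rw [h7 x hx]
  · exact neg_injective hxt

theorem HypD.disj {F G : Set E} {ell : E →L[ℝ] ℝ} {t : ℝ} {U V : Set M}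
    (h : S.HypD F G ell t U V) : Disjoint U V := by
  rw [Set.disjoint_left]
  intro p hU hV
  exact h.2.2.1 (h.1.eq_of_meet h.2.1 ⟨p, hU, hV⟩)

/-- two members with disjoint faces have disjoint curves -/
theorem c_disj {F G : Set E} (hF : F ∈ S.EE) (hG : G ∈ S.EE) (hne : F ≠ G) (h : F ∩ G = ∅) :
    Disjoint (S.c F) (S.c G) := by
  rw [Set.disjoint_iff_inter_eq_empty, S.c_inter F hF G hG hne, h, Set.preimage_empty]

/-- a third curve lies on one side -/
theorem HypD.side {F G H : Set E} (hF : F ∈ S.EE) (hG : G ∈ S.EE) (hH : H ∈ S.EE) (hHF : H ≠ F)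
    (hHG : H ≠ G) (h1 : H ∩ F = ∅) (h2 : H ∩ G = ∅) {ell : E →L[ℝ] ℝ} {t : ℝ} {U V : Set M}
    (h : S.HypD F G ell t U V) : S.c H ⊆ U ∨ S.c H ⊆ V := by
  obtain ⟨x, hx, hxH, -⟩ := S.ext_notin hH hF hHF
  obtain ⟨q, hq, -⟩ := S.hat x hx
  have hxF : x ∉ F := fun h' => by
    have : x ∈ H ∩ F := ⟨hxH, h'⟩
    rw [h1] at this
    exact this
  have hxG : x ∉ G := fun h' => by
    have : x ∈ H ∩ G := ⟨hxH, h'⟩
    rw [h2] at this
    exact this
  have hqH : q ∈ S.c H := S.c_ext _ hH q (by rw [hq]; exact hx) (by rw [hq]; exact hxH)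
  have hsub : S.c H ⊆ (S.c F ∪ S.c G)ᶜ := by
    rintro y hy (h' | h')
    · exact Set.disjoint_left.1 (S.c_disj hH hF hHF h1) hy h'
    · exact Set.disjoint_left.1 (S.c_disj hH hG hHG h2) hy h'
  rcases (h.2.2.2.2.2.1 q (by rw [hq]; exact hx) (by rw [hq]; exact hxF) (by rw [hq]; exact hxG)).2
    with hU | hV
  · exact Or.inl (h.1.absorb (S.c_pre _ hH) hsub ⟨q, hqH, hU⟩)
  · exact Or.inr (h.2.1.absorb (S.c_pre _ hH) hsub ⟨q, hqH, hV⟩)

/-- extreme points are strictly on the side of the curve -/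
theorem HypD.pos {F G H : Set E} (hH : H ∈ S.EE) (h1 : H ∩ F = ∅) (h2 : H ∩ G = ∅)
    {ell : E →L[ℝ] ℝ} {t : ℝ} {U V : Set M} (h : S.HypD F G ell t U V) (hU : S.c H ⊆ U) :
    ∀ x ∈ S.ext ∩ H, t < ell x := by
  rintro x ⟨hx, hxH⟩
  obtain ⟨q, hq, -⟩ := S.hat x hx
  have hxF : x ∉ F := fun h' => by
    have : x ∈ H ∩ F := ⟨hxH, h'⟩
    rw [h1] at this
    exact this
  have hxG : x ∉ G := fun h' => by
    have : x ∈ H ∩ G := ⟨hxH, h'⟩
    rw [h2] at this
    exact this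
  have hqH : q ∈ S.c H := S.c_ext _ hH q (by rw [hq]; exact hx) (by rw [hq]; exact hxH)
  have h3 := h.2.2.2.1 q (hU hqH)
  have h4 := (h.2.2.2.2.2.1 q (by rw [hq]; exact hx) (by rw [hq]; exact hxF)
    (by rw [hq]; exact hxG)).1
  rw [hq] at h3 h4
  exact lt_of_le_of_ne h3 (Ne.symm h4)

/-- the crossing configuration is impossible -/
theorem crossing {F : Fin 4 → Set E} (hF : ∀ i, F i ∈ S.EE) (hinj : Function.Injective F)
    (hdis : ∀ i j, i ≠ j → F i ∩ F j = ∅)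
    (hsep : ∀ i j, i ≠ j → S.Sep (F i) (F j))
    (hhyp : ∀ i j, i ≠ j → ∃ (ell : E →L[ℝ] ℝ) (t : ℝ) (U V : Set M), S.HypD (F i) (F j) ell t U V)
    {ell : E →L[ℝ] ℝ} {t : ℝ} {U V : Set M} (h : S.HypD (F 0) (F 2) ell t U V)
    (hU : S.c (F 1) ⊆ U) (hV : S.c (F 3) ⊆ V) : False := by
  have hne : ∀ i j, i ≠ j → F i ≠ F j := fun i j hij he => hij (hinj he)
  obtain ⟨m, s, U', V', h'⟩ := hhyp 1 3 (by decide)
  -- the two curves `c 0`, `c 2` cannot both miss a component of the complement of `c 1 ∪ c 3`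
  have key : ∀ W, IsComp (S.c (F 1) ∪ S.c (F 3))ᶜ W → Disjoint W (S.c (F 0)) →
      Disjoint W (S.c (F 2)) → False := by
    intro W hW hW0 hW2
    have l1 := S.lim _ (hF 1) _ (hF 3) (hne 1 3 (by decide)) (hsep 1 3 (by decide)) W hW
    have hW' := hW
    rw [union_comm] at hW'
    have l3 := S.lim _ (hF 3) _ (hF 1) (hne 3 1 (by decide)) (hsep 3 1 (by decide)) W hW'
    obtain ⟨x, hx, hx1⟩ := l1
    obtain ⟨y, hy, hy3⟩ := l3
    have p1 : IsPreconnected (insert x (insert y W)) := by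
      refine hW.pre.subset_closure ?_ ?_
      · intro z hz
        exact mem_insert_of_mem _ (mem_insert_of_mem _ hz)
      · rintro z (rfl | rfl | hz)
        · exact hx
        · exact hy
        · exact subset_closure hz
    have p2 : IsPreconnected (S.c (F 1) ∪ insert x (insert y W)) :=
      IsPreconnected.union x hx1.1 (mem_insert x _) (S.c_pre _ (hF 1)) p1
    have p3 : IsPreconnected ((S.c (F 1) ∪ insert x (insert y W)) ∪ S.c (F 3)) :=
      IsPreconnected.union y (Or.inr (mem_insert_of_mem _ (mem_insert y W))) hy3.1 p2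
        (S.c_pre _ (hF 3))
    have d : ∀ i j, i ≠ j → Disjoint (S.c (F i)) (S.c (F j)) := fun i j hij =>
      S.c_disj (hF i) (hF j) (hne i j hij) (hdis i j hij)
    have hsub : (S.c (F 1) ∪ insert x (insert y W)) ∪ S.c (F 3) ⊆ (S.c (F 0) ∪ S.c (F 2))ᶜ := by
      rintro z hz (hz0 | hz2)
      · rcases hz with (hz | rfl | rfl | hz) | hz
        · exact Set.disjoint_left.1 (d 1 0 (by decide)) hz hz0
        · exact Set.disjoint_left.1 (d 1 0 (by decide)) hx1.1 hz0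
        · exact Set.disjoint_left.1 (d 3 0 (by decide)) hy3.1 hz0
        · exact Set.disjoint_left.1 hW0 hz hz0
        · exact Set.disjoint_left.1 (d 3 0 (by decide)) hz hz0
      · rcases hz with (hz | rfl | rfl | hz) | hz
        · exact Set.disjoint_left.1 (d 1 2 (by decide)) hz hz2
        · exact Set.disjoint_left.1 (d 1 2 (by decide)) hx1.1 hz2
        · exact Set.disjoint_left.1 (d 3 2 (by decide)) hy3.1 hz2
        · exact Set.disjoint_left.1 hW2 hz hz2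
        · exact Set.disjoint_left.1 (d 3 2 (by decide)) hz hz2
    have h1 := h.1.absorb p3 hsub ⟨x, Or.inl (Or.inl hx1.1), hU hx1.1⟩
    exact Set.disjoint_left.1 (HypD.disj S h) (h1 (Or.inr hy3.1)) (hV hy3.1)
  have c0 := HypD.side S (hF 1) (hF 3) (hF 0) (hne 0 1 (by decide)) (hne 0 3 (by decide))
    (hdis 0 1 (by decide)) (hdis 0 3 (by decide)) h'
  have c2 := HypD.side S (hF 1) (hF 3) (hF 2) (hne 2 1 (by decide)) (hne 2 3 (by decide))
    (hdis 2 1 (by decide)) (hdis 2 3 (by decide)) h'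
  have hd' := HypD.disj S h'
  -- dimension condition
  have hdim : ∀ i j, i ≠ j → (Module.finrank ℝ (vectorSpan ℝ (F i ∪ F j)) = 5 ∧ Module.finrank ℝ E = 6) := by
    intro i j hij
    obtain ⟨_, _, _, _, hh⟩ := hhyp i j hij
    exact hh.2.2.2.2.2.2.2.2
  have a1 := HypD.pos S (hF 1) (hdis 1 0 (by decide)) (hdis 1 2 (by decide)) h hU
  have a3 : ∀ x ∈ S.ext ∩ F 3, ell x < t := by
    intro x hx
    have := HypD.pos S (hF 3) (hdis 3 0 (by decide)) (hdis 3 2 (by decide)) (HypD.neg S h) hV x hx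
    have h2 : -t < -(ell x) := this
    linarith
  rcases c0 with c0 | c0 <;> rcases c2 with c2 | c2
  · exact key V' h'.2.1 (Set.disjoint_of_subset_right c0 hd'.symm)
      (Set.disjoint_of_subset_right c2 hd'.symm)
  · refine S.e6 F hF hdim ell m t s h.2.2.2.2.2.2.1 h.2.2.2.2.2.2.2.1 h'.2.2.2.2.2.2.1
      h'.2.2.2.2.2.2.2.1 a1 a3
      (HypD.pos S (hF 0) (hdis 0 1 (by decide)) (hdis 0 3 (by decide)) h' c0) ?_
    intro x hx
    have := HypD.pos S (hF 2) (hdis 2 1 (by decide)) (hdis 2 3 (by decide)) (HypD.neg S h') c2 x hx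
    have h2 : -s < -(m x) := this
    linarith
  · have hn := HypD.neg S h'
    refine S.e6 F hF hdim ell (-m) t (-s) h.2.2.2.2.2.2.1 h.2.2.2.2.2.2.2.1 hn.2.2.2.2.2.2.1
      hn.2.2.2.2.2.2.2.1 a1 a3
      (HypD.pos S (hF 0) (hdis 0 1 (by decide)) (hdis 0 3 (by decide)) hn c0) ?_
    intro x hx
    have := HypD.pos S (hF 2) (hdis 2 1 (by decide)) (hdis 2 3 (by decide)) h' c2 x hx
    show -(m x) < -s
    linarith
  · exact key U' h'.1 (Set.disjoint_of_subset_right c0 hd') (Set.disjoint_of_subset_right c2 hd')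

/-- **E5** -/
theorem e5 {F : Fin 4 → Set E} (hF : ∀ i, F i ∈ S.EE) (hinj : Function.Injective F)
    (hdis : ∀ i j, i ≠ j → F i ∩ F j = ∅)
    (hsep : ∀ i j, i ≠ j → S.Sep (F i) (F j))
    (hhyp : ∀ i j, i ≠ j → ∃ (ell : E →L[ℝ] ℝ) (t : ℝ) (U V : Set M),
      S.HypD (F i) (F j) ell t U V) : False := by
  have hne : ∀ i j, i ≠ j → F i ≠ F j := fun i j hij he => hij (hinj he)
  -- a pair `0, j` with the other two curves `k, l` on different sides
  have step : ∀ σ : Equiv.Perm (Fin 4), ∀ (ell : E →L[ℝ] ℝ) (t : ℝ) (U V : Set M),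
      S.HypD (F (σ 0)) (F (σ 2)) ell t U V → S.c (F (σ 1)) ⊆ U → S.c (F (σ 3)) ⊆ V → False := by
    intro σ ell t U V h hU hV
    refine S.crossing (F := fun i => F (σ i)) (fun i => hF _) (hinj.comp σ.injective)
      (fun i j hij => hdis _ _ (fun h => hij (σ.injective h)))
      (fun i j hij => hsep _ _ (fun h => hij (σ.injective h)))
      (fun i j hij => hhyp _ _ (fun h => hij (σ.injective h))) h hU hV
  have step' : ∀ j k l : Fin 4, (∃ σ : Equiv.Perm (Fin 4), σ 0 = 0 ∧ σ 1 = k ∧ σ 2 = j ∧ σ 3 = l) →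
      (∃ σ : Equiv.Perm (Fin 4), σ 0 = 0 ∧ σ 1 = l ∧ σ 2 = j ∧ σ 3 = k) → j ≠ 0 → k ≠ 0 → l ≠ 0 →
      k ≠ j → l ≠ j →
      ∃ W, IsComp (S.c (F 0) ∪ S.c (F j))ᶜ W ∧ Disjoint W (S.c (F k)) ∧
        Disjoint W (S.c (F l)) := by
    intro j k l hσ hσ' hj hk hl hkj hlj
    obtain ⟨ell, t, U, V, h⟩ := hhyp 0 j (Ne.symm hj)
    have hd := HypD.disj S h
    have ck := HypD.side S (hF 0) (hF j) (hF k) (hne k 0 hk) (hne k j hkj) (hdis k 0 hk)
      (hdis k j hkj) h
    have cl := HypD.side S (hF 0) (hF j) (hF l) (hne l 0 hl) (hne l j hlj) (hdis l 0 hl)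
      (hdis l j hlj) h
    rcases ck with ck | ck <;> rcases cl with cl | cl
    · exact ⟨V, h.2.1, Set.disjoint_of_subset_right ck hd.symm,
        Set.disjoint_of_subset_right cl hd.symm⟩
    · exfalso
      obtain ⟨σ, s0, s1, s2, s3⟩ := hσ
      refine step σ ell t U V ?_ ?_ ?_
      · rw [s0, s2]; exact h
      · rw [s1]; exact ck
      · rw [s3]; exact cl
    · exfalso
      obtain ⟨σ, s0, s1, s2, s3⟩ := hσ'
      refine step σ ell t U V ?_ ?_ ?_
      · rw [s0, s2]; exact h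
      · rw [s1]; exact cl
      · rw [s3]; exact ck
    · exact ⟨U, h.1, Set.disjoint_of_subset_right ck hd, Set.disjoint_of_subset_right cl hd⟩
  have hperm : ∀ j k l : Fin 4, j ≠ 0 → k ≠ 0 → l ≠ 0 → j ≠ k → j ≠ l → k ≠ l →
      ∃ σ : Equiv.Perm (Fin 4), σ 0 = 0 ∧ σ 1 = k ∧ σ 2 = j ∧ σ 3 = l := by
    intro j k l hj hk hl hjk hjl hkl
    have hi : Function.Injective (![0, k, j, l] : Fin 4 → Fin 4) := by
      revert j k l
      decide
    exact ⟨Equiv.ofBijective _ (Finite.injective_iff_bijective.1 hi), rfl, rfl, rfl, rfl⟩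
  refine S.partners hF hinj (fun j hj => hsep 0 j (Ne.symm hj)) ?_ ?_
  · intro j hj
    obtain ⟨k, l, hk, hl, hjk, hjl, hkl, hall⟩ : ∃ k l : Fin 4, k ≠ 0 ∧ l ≠ 0 ∧ j ≠ k ∧ j ≠ l ∧
        k ≠ l ∧ ∀ i : Fin 4, i = 0 ∨ i = j ∨ i = k ∨ i = l := by
      revert j
      decide
    obtain ⟨W, hW, hWk, hWl⟩ := step' j k l (hperm j k l hj hk hl hjk hjl hkl)
      (hperm j l k hj hl hk hjl hjk (Ne.symm hkl)) hj hk hl (Ne.symm hjk) (Ne.symm hjl)
    refine ⟨W, hW, fun i => ?_⟩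
    rcases hall i with rfl | rfl | rfl | rfl
    · rw [Set.disjoint_left]
      intro p hp h
      exact hW.sub hp (Or.inl h)
    · rw [Set.disjoint_left]
      intro p hp h
      exact hW.sub hp (Or.inr h)
    · exact hWk
    · exact hWl
  · intro j k hj hk hjk
    left
    rw [hdis 0 j (Ne.symm hj), Set.empty_inter]

/-- **E.** The set of essential 2-faces is finite. -/
theorem finite : S.EE.Finite := by
  by_contra hinf
  obtain ⟨u, hEE, hne⟩ := exists_ultra (S := S.EE) hinf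
  rcases pair_dich u (fun F G => S.Sep F G) with hsep | hsep
  swap
  · obtain ⟨s, hs1, hs2, hs3⟩ := pick_many (u := u) hne hEE (P := fun F G => ¬ S.Sep F G)
      (fun F G h h' => h (Sep.symm S h')) hsep S.N
    obtain ⟨i, j, hij, h⟩ := S.t8 s hs2 hs1
    exact hs3 i j hij h
  rcases pair_dich u (fun F G : Set E => (F ∩ G).Nonempty) with hint | hint
  · exact S.e4 hEE hne hsep hint
  have hint' : ∀ᶠ F in (u : Filter (Set E)), ∀ᶠ G in (u : Filter (Set E)), F ∩ G = ∅ := by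
    filter_upwards [hint] with F h
    filter_upwards [h] with G h
    exact Set.not_nonempty_iff_eq_empty.1 h
  rcases pair_dich u (fun F G => S.Flat F G) with hfl | hfl
  · obtain ⟨s, hs1, hs2, hs3⟩ := pick_many (u := u) hne hEE
      (P := fun F G => S.Sep F G ∧ F ∩ G = ∅ ∧ S.Flat F G)
      (fun F G h => ⟨Sep.symm S h.1, by rw [inter_comm]; exact h.2.1, Flat.symm S h.2.2⟩)
      (by
        filter_upwards [hsep, hint', hfl] with F h1 h2 h3
        filter_upwards [h1, h2, h3] with G a b c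
        exact ⟨a, b, c⟩) 4
    exact S.common hs2 hs1 (fun i j hij => (hs3 i j hij).1)
      (fun j hj => (hs3 0 j (Ne.symm hj)).2.2) ∅ (fun i j hij => (hs3 i j hij).2.1)
  · obtain ⟨s, hs1, hs2, hs3⟩ := pick_many (u := u) hne hEE
      (P := fun F G => S.Sep F G ∧ F ∩ G = ∅ ∧ ¬ S.Flat F G)
      (fun F G h => ⟨Sep.symm S h.1, by rw [inter_comm]; exact h.2.1,
        fun h' => h.2.2 (Flat.symm S h')⟩)
      (by
        filter_upwards [hsep, hint', hfl] with F h1 h2 h3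
        filter_upwards [h1, h2, h3] with G a b c
        exact ⟨a, b, c⟩) 4
    refine S.e5 hs2 hs1 (fun i j hij => (hs3 i j hij).2.1) (fun i j hij => (hs3 i j hij).1) ?_
    intro i j hij
    rcases S.flat_or _ (hs2 i) _ (hs2 j) (fun h => hij (hs1 h)) (hs3 i j hij).1
      (hs3 i j hij).2.1 with h | h
    · exact absurd h (hs3 i j hij).2.2
    · exact h

end Sys

end Pool.Agent.H10.PO
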