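import Pool.Agent.H10.PO.Sys

/-!
# Part E (helper10): flat pairs (E3, E4)
-/

namespace Pool.Agent.H10.PO

open Set Filter Topology Pool.Agent.H61.PO

namespace Sys

variable {M E : Type*} [TopologicalSpace M] [NormedAddCommGroup E] [NormedSpace ℝ E] (S : Sys M E)

theorem partners_flat {F : Fin 4 → Set E} (hF : ∀ i, F i ∈ S.EE) (hinj : Function.Injective F)
    (hsep : ∀ j, j ≠ 0 → S.Sep (F 0) (F j)) (hflat : ∀ j, j ≠ 0 → S.Flat (F 0) (F j))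
    (hcov : ∀ j k, j ≠ 0 → k ≠ 0 → k ≠ j → ∀ Q, IsComp (S.c (F 0) ∪ S.c (F j))ᶜ Q →
      (∀ p, S.f p ∈ S.ext → S.f p ∉ F 0 → S.f p ∉ F j → p ∈ Q) →
      ∀ p ∈ S.c (F k), p ∉ S.c (F 0) → p ∉ S.c (F j) → p ∈ Q)
    (htri : ∀ j k, j ≠ 0 → k ≠ 0 → j ≠ k →
      (F 0 ∩ F j ∩ F k = ∅ ∨ (F 0 ∩ F j = F 0 ∩ F k ∧ F j ∩ F k ⊆ F 0))) : False := by
  refine S.partners hF hinj hsep ?_ htri
  intro j hj
  obtain ⟨Q, hQ, hQ2⟩ := hflat j hj
  obtain ⟨W, hW, hWQ⟩ := exists_comp_ne (hsep j hj) Q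
  refine ⟨W, hW, ?_⟩
  intro k
  rw [Set.disjoint_left]
  intro p hpW hpk
  have hp := hW.sub hpW
  have h0 : p ∉ S.c (F 0) := fun h => hp (Or.inl h)
  have h1 : p ∉ S.c (F j) := fun h => hp (Or.inr h)
  by_cases hk0 : k = 0
  · exact h0 (hk0 ▸ hpk)
  by_cases hkj : k = j
  · exact h1 (hkj ▸ hpk)
  exact hWQ (hW.eq_of_meet hQ ⟨p, hpW, hcov j k hj hk0 hkj Q hQ hQ2 p hpk h0 h1⟩)

theorem ext_notin {F G : Set E} (hF : F ∈ S.EE) (hG : G ∈ S.EE) (hne : F ≠ G) :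
    ∃ x ∈ S.ext, x ∈ F ∧ x ∉ G := by
  obtain ⟨x₁, hx₁, x₂, hx₂, x₃, hx₃, h12, h13, h23⟩ := S.three F hF
  by_contra hcon
  push Not at hcon
  have m1 : x₁ ∈ F ∩ G := ⟨hx₁.2, hcon x₁ hx₁.1 hx₁.2⟩
  have m2 : x₂ ∈ F ∩ G := ⟨hx₂.2, hcon x₂ hx₂.1 hx₂.2⟩
  have m3 : x₃ ∈ F ∩ G := ⟨hx₃.2, hcon x₃ hx₃.1 hx₃.2⟩
  rcases S.inter F hF G hG hne with h | ⟨v, -, h⟩ | h
  · rw [h] at m1
    exact m1
  · rw [h] at m1 m2
    exact h12 (m1.trans m2.symm)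
  · obtain ⟨v, -, w, -, -, hvw⟩ := S.edge_ends _ h
    have n1 : x₁ ∈ ({v, w} : Set E) := hvw ▸ ⟨m1, hx₁.1⟩
    have n2 : x₂ ∈ ({v, w} : Set E) := hvw ▸ ⟨m2, hx₂.1⟩
    have n3 : x₃ ∈ ({v, w} : Set E) := hvw ▸ ⟨m3, hx₃.1⟩
    rcases n1 with n1 | n1 <;> rcases n2 with n2 | n2 <;> rcases n3 with n3 | n3
    · exact h12 (n1.trans n2.symm)
    · exact h12 (n1.trans n2.symm)
    · exact h13 (n1.trans n3.symm)
    · exact h23 (n2.trans n3.symm)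
    · exact h23 (n2.trans n3.symm)
    · exact h13 (n1.trans n3.symm)
    · exact h12 (n1.trans n2.symm)
    · exact h12 (n1.trans n2.symm)

/-- members with a common pairwise intersection (this includes pairwise disjoint members) -/
theorem common {F : Fin 4 → Set E} (hF : ∀ i, F i ∈ S.EE) (hinj : Function.Injective F)
    (hsep : ∀ i j, i ≠ j → S.Sep (F i) (F j)) (hflat : ∀ j, j ≠ 0 → S.Flat (F 0) (F j))
    (a : Set E) (ha : ∀ i j, i ≠ j → F i ∩ F j = a) : False := by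
  have hne : ∀ i j, i ≠ j → F i ≠ F j := fun i j hij he => hij (hinj he)
  refine S.partners_flat hF hinj (fun j hj => hsep 0 j (Ne.symm hj)) hflat ?_ ?_
  · intro j k hj hk hkj Q hQ hQ2 p hp h0 h1
    obtain ⟨x, hx, hxk, hx0⟩ := S.ext_notin (hF k) (hF 0) (hne k 0 hk)
    obtain ⟨q, hq, -⟩ := S.hat x hx
    have hsub : S.c (F k) \ S.c (F 0) ⊆ (S.c (F 0) ∪ S.c (F j))ᶜ := by
      rintro y ⟨hy, hy0⟩ (h | h)
      · exact hy0 h
      · have h2 : y ∈ S.c (F k) ∩ S.c (F j) := ⟨hy, h⟩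
        rw [S.c_inter _ (hF k) _ (hF j) (hne k j hkj), ha k j hkj, ← ha k 0 hk,
          ← S.c_inter _ (hF k) _ (hF 0) (hne k 0 hk)] at h2
        exact hy0 h2.2
    have hq0 : q ∉ S.c (F 0) := fun h => hx0 (hq ▸ S.c_sub _ (hF 0) q h)
    have hqk : q ∈ S.c (F k) := S.c_ext _ (hF k) q (by rw [hq]; exact hx) (by rw [hq]; exact hxk)
    have hqj : S.f q ∉ F j := by
      intro h
      apply hq0
      have h2 : q ∈ S.c (F k) ∩ S.c (F 0) := by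
        rw [S.c_inter _ (hF k) _ (hF 0) (hne k 0 hk), ha k 0 hk, ← ha k j hkj]
        exact ⟨by rw [hq]; exact hxk, h⟩
      exact h2.2
    have hqQ : q ∈ Q := hQ2 q (by rw [hq]; exact hx) (by rw [hq]; exact hx0) hqj
    exact hQ.absorb (S.c_diff _ (hF k) _ (hF 0) (hne k 0 hk)) hsub ⟨q, ⟨hqk, hq0⟩, hqQ⟩ ⟨hp, h0⟩
  · intro j k hj hk hjk
    right
    rw [ha 0 j (Ne.symm hj), ha 0 k (Ne.symm hk), ha j k hjk]
    refine ⟨rfl, ?_⟩
    rw [← ha 0 j (Ne.symm hj)]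
    exact inter_subset_left

/-- a point inside an edge of `F` which meets only one of the other two -/
theorem edge_case {G H : Set E} (hG : G ∈ S.EE) (hH : H ∈ S.EE) {Q : Set M}
    (hQ : IsComp (S.c G ∪ S.c H)ᶜ Q)
    (hQ2 : ∀ p, S.f p ∈ S.ext → S.f p ∉ G → S.f p ∉ H → p ∈ Q) {e : Set E} (he : e ∈ S.edge)
    {p : M} (hpe : S.f p ∈ e) (hpx : S.f p ∉ S.ext) (hpG : S.f p ∉ G) (hpH : S.f p ∉ H)
    (hdis : e ∩ G = ∅ ∨ e ∩ H = ∅) : p ∈ Q := by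
  -- there is an end outside `G ∪ H`
  have hend : ∃ v ∈ e ∩ S.ext, v ∉ G ∧ v ∉ H := by
    by_contra hcon
    push Not at hcon
    rcases hdis with h | h
    · have : e ⊆ H := S.edge_conv e he H hH (fun v hv => hcon v hv (fun hvG => by
        have : v ∈ e ∩ G := ⟨hv.1, hvG⟩
        rw [h] at this
        exact this))
      exact hpH (this hpe)
    · have : e ⊆ G := S.edge_conv e he G hG (fun v hv => by
        by_contra hvG
        have h2 : v ∈ e ∩ H := ⟨hv.1, hcon v hv hvG⟩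
        rw [h] at h2
        exact h2)
      exact hpG (this hpe)
  obtain ⟨v, hv, hvG, hvH⟩ := hend
  obtain ⟨T, hT, hT1, hT2, hT3, hT4⟩ := S.edge_seg e he (S.f p) hpe hpx v hv
  obtain ⟨q, hq, -⟩ := S.hat v hv.2
  have hqQ : q ∈ Q := hQ2 q (by rw [hq]; exact hv.2) (by rw [hq]; exact hvG) (by rw [hq]; exact hvH)
  refine hQ.absorb hT ?_ ⟨q, hT2 q hq, hqQ⟩ (hT1 p rfl)
  rintro y hy (h | h)
  · rcases S.edge_face e he G hG (S.f y) ⟨hT3 y hy, S.c_sub _ hG y h⟩ with h2 | h2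
    · exact hvG (hT4 y hy h2 ▸ S.c_sub _ hG y h)
    · exact hpG (h2 hpe)
  · rcases S.edge_face e he H hH (S.f y) ⟨hT3 y hy, S.c_sub _ hH y h⟩ with h2 | h2
    · exact hvH (hT4 y hy h2 ▸ S.c_sub _ hH y h)
    · exact hpH (h2 hpe)

/-- members without arrows -/
theorem noarrow {F : Fin 4 → Set E} (hF : ∀ i, F i ∈ S.EE) (hinj : Function.Injective F)
    (hsep : ∀ j, j ≠ 0 → S.Sep (F 0) (F j)) (hflat : ∀ j, j ≠ 0 → S.Flat (F 0) (F j))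
    (htri : ∀ j k, j ≠ 0 → k ≠ 0 → j ≠ k → F 0 ∩ F j ∩ F k = ∅)
    (harr : ∀ j k, j ≠ 0 → k ≠ 0 → j ≠ k → ∀ e ∈ S.edge, e ⊆ F k → e ∩ F 0 = ∅ ∨ e ∩ F j = ∅) :
    False := by
  have hne : ∀ i j, i ≠ j → F i ≠ F j := fun i j hij he => hij (hinj he)
  refine S.partners_flat hF hinj hsep hflat ?_ (fun j k hj hk hjk => Or.inl (htri j k hj hk hjk))
  intro j k hj hk hkj Q hQ hQ2 p hp h0 h1
  have hpk := S.c_sub _ (hF k) p hp
  have hp0 : S.f p ∉ F 0 := by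
    intro h
    have h2 : p ∈ S.c (F k) ∩ S.c (F 0) := by
      rw [S.c_inter _ (hF k) _ (hF 0) (hne k 0 hk)]
      exact ⟨hpk, h⟩
    exact h0 h2.2
  have hpj : S.f p ∉ F j := by
    intro h
    have h2 : p ∈ S.c (F k) ∩ S.c (F j) := by
      rw [S.c_inter _ (hF k) _ (hF j) (hne k j hkj)]
      exact ⟨hpk, h⟩
    exact h1 h2.2
  by_cases hpx : S.f p ∈ S.ext
  · exact hQ2 p hpx hp0 hpj
  rcases S.c_cases _ (hF k) p hp with h | ⟨e, he, heF, hpe⟩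
  · exact absurd h hpx
  · exact S.edge_case (hF 0) (hF j) hQ hQ2 he hpe hpx hp0 hpj (harr j k hj hk (Ne.symm hkj) e he heF)

end Sys

end Pool.Agent.H10.PO
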