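import Pool.Agent.H10.PO.Fin
import Pool.Agent.H10.PO.E6
import Pool.Agent.H10.PO.Arc
import Pool.Agent.H61.PO.SB
import Pool.Agent.H61.PO.SC
import Pool.Agent.H61.PO.Few

/-!
# Part E (helper10): the instance of `Sys` for a tight map, finiteness of the set of essential 2-faces
-/

namespace Pool.Agent.H10.PO

open Set Filter Topology Pool.Agent.H61.PO

section faces

variable {E : Type*} [NormedAddCommGroup E] [NormedSpace ℝ E] [FiniteDimensional ℝ E]
  {K F G A B e e' : Set E} {x y v : E}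

/-- edges of `K` -/
def Edge (K : Set E) : Set (Set E) := {e | IsFace K e ∧ dimc e = 1}

theorem face_cases (hF : IsFace K F) (h : dimc F ≤ 1) :
    (∃ v ∈ K.extremePoints ℝ, F = {v}) ∨ F ∈ Edge K := by
  rcases Nat.lt_or_ge (dimc F) 1 with h1 | h1
  · left
    exact hF.dim_zero (by omega)
  · right
    exact ⟨hF, by omega⟩

theorem face_hull (hF : IsFace K F) : convexHull ℝ (F ∩ K.extremePoints ℝ) = F := by
  rw [← hF.ext_eq]
  exact minkowski hF.2.1 hF.2.2.1

/-- an extreme point in a segment is an end -/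
theorem ext_seg {z : E} (hz : z ∈ K.extremePoints ℝ) (hx : x ∈ K) (hy : y ∈ K)
    (h : z ∈ segment ℝ x y) : z = x ∨ z = y := by
  by_cases h1 : z = x
  · exact Or.inl h1
  by_cases h2 : z = y
  · exact Or.inr h2
  have h3 := mem_openSegment_of_ne_left_right (Ne.symm h1) (Ne.symm h2) h
  exact absurd (hz.2 hx hy h3) (Ne.symm h1)

theorem edge_ends' (he : e ∈ Edge K) : ∃ x y, x ∈ K.extremePoints ℝ ∧ y ∈ K.extremePoints ℝ ∧
    x ≠ y ∧ e = segment ℝ x y ∧ e ∩ K.extremePoints ℝ = {x, y} := by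
  obtain ⟨x, y, hx, hy, hxy, h1⟩ := he.1.dim_one he.2
  refine ⟨x, y, hx, hy, hxy, h1, ?_⟩
  ext z
  constructor
  · rintro ⟨hz1, hz2⟩
    rw [h1] at hz1
    exact ext_seg hz2 hx.1 hy.1 hz1
  · rintro (rfl | rfl)
    · rw [h1]
      exact ⟨left_mem_segment ℝ _ _, hx⟩
    · rw [h1]
      exact ⟨right_mem_segment ℝ _ _, hy⟩

/-- a point of a face which is a convex combination of points of `A` -/
theorem face_comb (hK : Convex ℝ K) (hF : IsFace K F) (hA : A ⊆ K) {z : E} (hz : z ∈ F)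
    (hzA : z ∈ convexHull ℝ A) : ∃ a ∈ A, a ∈ F := by
  by_contra hcon
  push Not at hcon
  -- `K \ F` is convex
  have hKF : Convex ℝ (K \ F) := by
    intro a ha b hb s t hs ht hst
    refine ⟨hK ha.1 hb.1 hs ht hst, ?_⟩
    intro hF'
    rcases hs.lt_or_eq with hs' | hs'
    · rcases ht.lt_or_eq with ht' | ht'
      · exact ha.2 (hF.1.left_mem_of_mem_openSegment ha.1 hb.1 hF' ⟨s, t, hs', ht', hst, rfl⟩)
      · rw [← ht'] at hst hF'
        rw [add_zero] at hst
        rw [hst, one_smul, zero_smul, add_zero] at hF'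
        exact ha.2 hF'
    · rw [← hs'] at hst hF'
      rw [zero_add] at hst
      rw [hst, one_smul, zero_smul, zero_add] at hF'
      exact hb.2 hF'
  have h1 : convexHull ℝ A ⊆ K \ F := by
    apply convexHull_min _ hKF
    intro a ha
    exact ⟨hA ha, hcon a ha⟩
  exact (h1 hzA).2 hz

theorem edge_inj' (he : e ∈ Edge K) (he' : e' ∈ Edge K)
    (h : e ∩ K.extremePoints ℝ = e' ∩ K.extremePoints ℝ) : e = e' := by
  rw [← face_hull he.1, ← face_hull he'.1, h]

theorem edge_conv' (he : e ∈ Edge K) (hF : Convex ℝ F) (h : e ∩ K.extremePoints ℝ ⊆ F) :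
    e ⊆ F := by
  rw [← face_hull he.1]
  exact convexHull_min h hF

/-- an edge contains two extreme points, `v` and another one -/
theorem edge_other (he : e ∈ Edge K) (hv : v ∈ K.extremePoints ℝ) (hve : v ∈ e) :
    ∃ w ∈ K.extremePoints ℝ, w ≠ v ∧ e = segment ℝ v w ∧ e ∩ K.extremePoints ℝ = {v, w} := by
  obtain ⟨x, y, hx, hy, hxy, h1, h2⟩ := edge_ends' he
  have h3 : v ∈ e ∩ K.extremePoints ℝ := ⟨hve, hv⟩
  rw [h2] at h3
  rcases h3 with rfl | h3
  · exact ⟨y, hy, hxy.symm, h1, h2⟩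
  · have h4 : v = y := h3
    subst h4
    refine ⟨x, hx, hxy, ?_, ?_⟩
    · rw [h1, segment_symm]
    · rw [h2, pair_comm]

/-- at most two edges of a 2-face through an extreme point -/
theorem edge_two' (hK : Convex ℝ K) (hF2 : dimc F = 2) (hv : v ∈ K.extremePoints ℝ)
    {e₁ e₂ e₃ : Set E} (h₁ : e₁ ∈ Edge K) (h₂ : e₂ ∈ Edge K) (h₃ : e₃ ∈ Edge K) (f₁ : e₁ ⊆ F)
    (f₂ : e₂ ⊆ F) (f₃ : e₃ ⊆ F) (v₁ : v ∈ e₁) (v₂ : v ∈ e₂) (v₃ : v ∈ e₃) :
    e₁ = e₂ ∨ e₁ = e₃ ∨ e₂ = e₃ := by
  by_contra hcon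
  push Not at hcon
  obtain ⟨n12, n13, n23⟩ := hcon
  obtain ⟨w₁, hw₁, hwv₁, s₁, x₁⟩ := edge_other h₁ hv v₁
  obtain ⟨w₂, hw₂, hwv₂, s₂, x₂⟩ := edge_other h₂ hv v₂
  obtain ⟨w₃, hw₃, hwv₃, s₃, x₃⟩ := edge_other h₃ hv v₃
  have d12 : w₁ ≠ w₂ := fun h => n12 (by rw [s₁, s₂, h])
  have d13 : w₁ ≠ w₃ := fun h => n13 (by rw [s₁, s₃, h])
  have d23 : w₂ ≠ w₃ := fun h => n23 (by rw [s₂, s₃, h])
  let p : Fin 4 → E := ![v, w₁, w₂, w₃]
  have hpext : ∀ k, p k ∈ K.extremePoints ℝ := by
    intro k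
    fin_cases k
    · exact hv
    · exact hw₁
    · exact hw₂
    · exact hw₃
  have hpK : ∀ J : Set (Fin 4), p '' J ⊆ K := by
    rintro J _ ⟨k, -, rfl⟩
    exact (hpext k).1
  have hpF : ∀ k, p k ∈ F := by
    intro k
    fin_cases k
    · exact f₁ v₁
    · apply f₁
      show w₁ ∈ e₁
      rw [s₁]
      exact right_mem_segment ℝ _ _
    · apply f₂
      show w₂ ∈ e₂
      rw [s₂]
      exact right_mem_segment ℝ _ _
    · apply f₃
      show w₃ ∈ e₃
      rw [s₃]
      exact right_mem_segment ℝ _ _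
  have hinj : Function.Injective p := by
    intro a b hab
    fin_cases a <;> fin_cases b <;> simp [p] at hab ⊢
    · exact absurd hab.symm hwv₁
    · exact absurd hab.symm hwv₂
    · exact absurd hab.symm hwv₃
    · exact absurd hab hwv₁
    · exact absurd hab d12
    · exact absurd hab d13
    · exact absurd hab hwv₂
    · exact absurd hab.symm d12
    · exact absurd hab d23
    · exact absurd hab hwv₃
    · exact absurd hab.symm d13
    · exact absurd hab.symm d23
  have hnind : ¬ AffineIndependent ℝ p := by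
    intro hind
    have h1 := hind.finrank_vectorSpan (n := 3) (by simp)
    have h2 : Module.finrank ℝ (vectorSpan ℝ (range p)) ≤ Module.finrank ℝ (vectorSpan ℝ F) :=
      Submodule.finrank_mono (vectorSpan_mono ℝ (by
        rintro _ ⟨k, rfl⟩
        exact hpF k))
    have h3 : Module.finrank ℝ (vectorSpan ℝ F) = 2 := hF2
    omega
  obtain ⟨I, z, hz1, hz2⟩ := Convex.radon_partition hnind
  -- the two members of a face
  have hfz : IsFace K {v} := IsFace.of_ext hv
  have key : ∀ (J : Set (Fin 4)) (D : Set E), IsFace K D → z ∈ convexHull ℝ (p '' J) →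
      z ∈ convexHull ℝ (p '' Jᶜ) → (∀ k ∈ J, p k ∈ D) → ∃ k ∉ J, p k ∈ D := by
    intro J D hD hz1 hz2 hJ
    have hzD : z ∈ D := by
      refine (convexHull_min ?_ hD.2.1) hz1
      rintro _ ⟨k, hk, rfl⟩
      exact hJ k hk
    obtain ⟨_, ⟨k, hk, rfl⟩, hkD⟩ := face_comb hK hD (hpK _) hzD hz2
    exact ⟨k, hk, hkD⟩
  have hz1' : z ∈ convexHull ℝ (p '' Iᶜᶜ) := by rwa [compl_compl]
  -- members of the faces
  have ms : ∀ k l, p k ∈ ({p l} : Set E) → k = l := fun k l h => hinj h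
  have me₁ : ∀ k, p k ∈ e₁ → k = 0 ∨ k = 1 := by
    intro k hk
    have h1 : p k ∈ e₁ ∩ K.extremePoints ℝ := ⟨hk, hpext k⟩
    rw [x₁] at h1
    rcases h1 with h1 | h1
    · exact Or.inl (hinj (a₂ := 0) h1)
    · exact Or.inr (hinj (a₂ := 1) h1)
  have me₂ : ∀ k, p k ∈ e₂ → k = 0 ∨ k = 2 := by
    intro k hk
    have h1 : p k ∈ e₂ ∩ K.extremePoints ℝ := ⟨hk, hpext k⟩
    rw [x₂] at h1
    rcases h1 with h1 | h1
    · exact Or.inl (hinj (a₂ := 0) h1)
    · exact Or.inr (hinj (a₂ := 2) h1)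
  have me₃ : ∀ k, p k ∈ e₃ → k = 0 ∨ k = 3 := by
    intro k hk
    have h1 : p k ∈ e₃ ∩ K.extremePoints ℝ := ⟨hk, hpext k⟩
    rw [x₃] at h1
    rcases h1 with h1 | h1
    · exact Or.inl (hinj (a₂ := 0) h1)
    · exact Or.inr (hinj (a₂ := 3) h1)
  have in₁ : w₁ ∈ e₁ := by
    rw [s₁]
    exact right_mem_segment ℝ _ _
  have in₂ : w₂ ∈ e₂ := by
    rw [s₂]
    exact right_mem_segment ℝ _ _
  have in₃ : w₃ ∈ e₃ := by
    rw [s₃]
    exact right_mem_segment ℝ _ _
  -- wlog `0 ∈ I`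
  have main : ∀ J : Set (Fin 4), (0 : Fin 4) ∈ J → z ∈ convexHull ℝ (p '' J) →
      z ∈ convexHull ℝ (p '' Jᶜ) → False := by
    intro J h0 hz1 hz2
    have hz1' : z ∈ convexHull ℝ (p '' Jᶜᶜ) := by rwa [compl_compl]
    have hall : ∀ k : Fin 4, k = 0 ∨ k = 1 ∨ k = 2 ∨ k = 3 := by decide
    by_cases h1 : (1 : Fin 4) ∈ J <;> by_cases h2 : (2 : Fin 4) ∈ J <;>
      by_cases h3 : (3 : Fin 4) ∈ J
    · -- everything
      have : p '' Jᶜ = ∅ := by
        rw [image_eq_empty, compl_empty_iff, eq_univ_iff_forall]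
        intro k
        rcases hall k with rfl | rfl | rfl | rfl <;> assumption
      rw [this, convexHull_empty] at hz2
      exact hz2
    · obtain ⟨k, hk, hk'⟩ := key Jᶜ {p 3} (IsFace.of_ext (hpext 3)) hz2 hz1' (by
        intro k hk
        rcases hall k with rfl | rfl | rfl | rfl
        · exact absurd h0 hk
        · exact absurd h1 hk
        · exact absurd h2 hk
        · rfl)
      rw [ms _ _ hk'] at hk
      exact hk h3
    · obtain ⟨k, hk, hk'⟩ := key Jᶜ {p 2} (IsFace.of_ext (hpext 2)) hz2 hz1' (by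
        intro k hk
        rcases hall k with rfl | rfl | rfl | rfl
        · exact absurd h0 hk
        · exact absurd h1 hk
        · rfl
        · exact absurd h3 hk)
      rw [ms _ _ hk'] at hk
      exact hk h2
    · obtain ⟨k, hk, hk'⟩ := key J e₁ h₁.1 hz1 hz2 (by
        intro k hk
        rcases hall k with rfl | rfl | rfl | rfl
        · exact v₁
        · exact in₁
        · exact absurd hk h2
        · exact absurd hk h3)
      rcases me₁ k hk' with rfl | rfl
      · exact hk h0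
      · exact hk h1
    · obtain ⟨k, hk, hk'⟩ := key Jᶜ {p 1} (IsFace.of_ext (hpext 1)) hz2 hz1' (by
        intro k hk
        rcases hall k with rfl | rfl | rfl | rfl
        · exact absurd h0 hk
        · rfl
        · exact absurd h2 hk
        · exact absurd h3 hk)
      rw [ms _ _ hk'] at hk
      exact hk h1
    · obtain ⟨k, hk, hk'⟩ := key J e₂ h₂.1 hz1 hz2 (by
        intro k hk
        rcases hall k with rfl | rfl | rfl | rfl
        · exact v₂
        · exact absurd hk h1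
        · exact in₂
        · exact absurd hk h3)
      rcases me₂ k hk' with rfl | rfl
      · exact hk h0
      · exact hk h2
    · obtain ⟨k, hk, hk'⟩ := key J e₃ h₃.1 hz1 hz2 (by
        intro k hk
        rcases hall k with rfl | rfl | rfl | rfl
        · exact v₃
        · exact absurd hk h1
        · exact absurd hk h2
        · exact in₃)
      rcases me₃ k hk' with rfl | rfl
      · exact hk h0
      · exact hk h3
    · obtain ⟨k, hk, hk'⟩ := key J {p 0} hfz hz1 hz2 (by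
        intro k hk
        rcases hall k with rfl | rfl | rfl | rfl
        · rfl
        · exact absurd hk h1
        · exact absurd hk h2
        · exact absurd hk h3)
      rw [ms _ _ hk'] at hk
      exact hk h0
  by_cases h0 : (0 : Fin 4) ∈ I
  · exact main I h0 hz1 hz2
  · exact main Iᶜ h0 hz2 hz1'

/-- at least three extreme points -/
theorem three' (hF : IsFace K F) (h : dimc F = 2) : ∃ x₁ ∈ K.extremePoints ℝ ∩ F,
    ∃ x₂ ∈ K.extremePoints ℝ ∩ F, ∃ x₃ ∈ K.extremePoints ℝ ∩ F, x₁ ≠ x₂ ∧ x₁ ≠ x₃ ∧ x₂ ≠ x₃ := by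
  have hpair : ∀ x y : E, ¬ (F ∩ K.extremePoints ℝ ⊆ {x, y}) := by
    intro x y hsub
    have h1 : F ⊆ segment ℝ x y := by
      rw [← face_hull hF, ← convexHull_pair]
      exact convexHull_mono hsub
    have h2 := dimc_mono h1
    have h3 : dimc (segment ℝ x y) ≤ 1 := by
      unfold dimc
      rw [← convexHull_pair, ← direction_affineSpan, affineSpan_convexHull, direction_affineSpan,
        vectorSpan_pair]
      have := finrank_span_le_card (R := ℝ) ({x -ᵥ y} : Set E)
      simpa using this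
    omega
  have h1 : ∃ x₁, x₁ ∈ F ∩ K.extremePoints ℝ := by
    by_contra hcon
    push Not at hcon
    exact hpair 0 0 fun z hz => absurd hz (hcon z)
  obtain ⟨x₁, hx₁⟩ := h1
  obtain ⟨x₂, hx₂, h12⟩ := not_subset.1 (hpair x₁ x₁)
  obtain ⟨x₃, hx₃, h3⟩ := not_subset.1 (hpair x₁ x₂)
  refine ⟨x₁, hx₁.symm, x₂, hx₂.symm, x₃, hx₃.symm, ?_, ?_, ?_⟩
  · rintro rfl
    exact h12 (Or.inl rfl)
  · rintro rfl
    exact h3 (Or.inl rfl)
  · rintro rfl
    exact h3 (Or.inr rfl)

/-- dimension of the union of two 2-faces -/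
theorem dim_union (hF : F.Nonempty) (hG : G.Nonempty) : dimc (F ∪ G) ≤ dimc F + dimc G + 1 := by
  obtain ⟨o, ho⟩ := hF
  obtain ⟨o', ho'⟩ := hG
  have h1 : vectorSpan ℝ (F ∪ G) ≤ vectorSpan ℝ F ⊔ vectorSpan ℝ G ⊔ Submodule.span ℝ {o' -ᵥ o} := by
    rw [vectorSpan_eq_span_vsub_set_right ℝ (show o ∈ F ∪ G from Or.inl ho), Submodule.span_le]
    rintro _ ⟨z, hz | hz, rfl⟩
    · exact Submodule.mem_sup_left (Submodule.mem_sup_left (vsub_mem_vectorSpan ℝ hz ho))
    · have : z -ᵥ o = (z -ᵥ o') + (o' -ᵥ o) := (vsub_add_vsub_cancel z o' o).symm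
      show z -ᵥ o ∈ _
      rw [this]
      exact add_mem (Submodule.mem_sup_left (Submodule.mem_sup_right (vsub_mem_vectorSpan ℝ hz ho')))
        (Submodule.mem_sup_right (Submodule.mem_span_singleton_self _))
  have h2 := Submodule.finrank_mono h1
  have h3 := Submodule.finrank_add_le_finrank_add_finrank (vectorSpan ℝ F ⊔ vectorSpan ℝ G)
    (Submodule.span ℝ {o' -ᵥ o})
  have h4 := Submodule.finrank_add_le_finrank_add_finrank (vectorSpan ℝ F) (vectorSpan ℝ G)
  have h5 : Module.finrank ℝ (Submodule.span ℝ ({o' -ᵥ o} : Set E)) ≤ 1 := by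
    have := finrank_span_le_card (R := ℝ) ({o' -ᵥ o} : Set E)
    simpa using this
  unfold dimc
  omega

theorem dim_union_inter (h : (F ∩ G).Nonempty) : dimc (F ∪ G) ≤ dimc F + dimc G := by
  obtain ⟨o, ho, ho'⟩ := h
  have h1 : vectorSpan ℝ (F ∪ G) ≤ vectorSpan ℝ F ⊔ vectorSpan ℝ G := by
    rw [vectorSpan_eq_span_vsub_set_right ℝ (show o ∈ F ∪ G from Or.inl ho), Submodule.span_le]
    rintro _ ⟨z, hz | hz, rfl⟩
    · exact Submodule.mem_sup_left (vsub_mem_vectorSpan ℝ hz ho)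
    · exact Submodule.mem_sup_right (vsub_mem_vectorSpan ℝ hz ho')
  have h2 := Submodule.finrank_mono h1
  have h4 := Submodule.finrank_add_le_finrank_add_finrank (vectorSpan ℝ F) (vectorSpan ℝ G)
  unfold dimc
  omega

theorem ext_rb (hF : IsFace K F) (h : dimc F = 2) (hx : x ∈ K.extremePoints ℝ) (hxF : x ∈ F) :
    x ∈ rb F := by
  have hx' : x ∈ F.extremePoints ℝ := by
    rw [hF.ext_eq]
    exact ⟨hxF, hx⟩
  refine (rb_iff hF.2.1 hF.2.2.1).2 ⟨hxF, ?_⟩
  intro hm
  have h2 : mf F x ⊆ {x} := mf_min (IsFace.of_ext hx') rfl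
  rw [hm] at h2
  have h3 := dimc_mono h2
  rw [dimc_singleton, h] at h3
  omega

theorem rb_cases (hF : IsFace K F) (h : dimc F = 2) (hx : x ∈ rb F) :
    x ∈ K.extremePoints ℝ ∨ ∃ e ∈ Edge K, e ⊆ F ∧ x ∈ e := by
  obtain ⟨hxF, hne⟩ := (rb_iff hF.2.1 hF.2.2.1).1 hx
  have h1 := mf_face hF.2.1 hF.2.2.1 hxF
  have h2 := IsFace.dim_lt hF.2.1 h1 hne
  rcases face_cases (hF.trans h1) (by omega) with ⟨v, hv, h3⟩ | h3
  · left
    have h4 : x ∈ mf F x := mem_mf
    rw [h3] at h4
    rw [show x = v from h4]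
    exact hv
  · right
    exact ⟨_, h3, h1.subset, mem_mf⟩

theorem edge_face' (hK : Convex ℝ K) (hKk : IsCompact K) (he : e ∈ Edge K) (hF : IsFace K F)
    (hye : y ∈ e) (hyF : y ∈ F) : y ∈ K.extremePoints ℝ ∨ e ⊆ F := by
  have hm := mf_face hK hKk (hF.subset hyF)
  have h1 : mf K y ⊆ e := mf_min he.1 hye
  have h2 : mf K y ⊆ F := mf_min hF hyF
  by_cases h3 : mf K y = e
  · right
    rw [← h3]
    exact h2
  · left
    have h4 := IsFace.of_subset he.1 hm h1
    have h5 := IsFace.dim_lt he.1.2.1 h4 h3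
    rw [he.2] at h5
    obtain ⟨w, hw, h6⟩ := hm.dim_zero (by omega)
    have h7 : y ∈ mf K y := mem_mf
    rw [h6] at h7
    rw [show y = w from h7]
    exact hw

end faces

section inst

variable {M : Type*} [MetricSpace M] [CompactSpace M] [Nonempty M]
  {E : Type*} [NormedAddCommGroup E] [NormedSpace ℝ E] [FiniteDimensional ℝ E] {f : M → E}
  {F G : Set E}

theorem cv_sub (hF : Two f F) {p : M} (hp : p ∈ cv f F) : f p ∈ F :=
  intrinsicFrontier_subset hF.1.2.2.1.isClosed hp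

theorem cv_sdiff (hf : Tight f) (hF : Two f F) (hG : Two f G) (hne : F ≠ G) :
    IsPreconnected (cv f F \ cv f G) := by
  have h1 : cv f F \ cv f G = cv f F \ f ⁻¹' (F ∩ G) := by
    rw [← cv_inter hf hF hG hne, sdiff_self_inter]
  rw [h1]
  rcases (F ∩ G).eq_empty_or_nonempty with h | h
  · rw [h, preimage_empty, sdiff_empty]
    exact cv_conn hf hF
  · obtain ⟨-, h2, -, -, h3, -⟩ := (two_inter hF.1 hG.1 hF.2 hG.2 hne).2 h
    exact cv_minus hf hF h2 h3

theorem cv_nsub (hf : Tight f) (hF : Two f F) (hG : Two f G) (hne : F ≠ G) :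
    ¬ cv f F ⊆ cv f G := by
  intro hsub
  have h1 : cv f F ⊆ f ⁻¹' (F ∩ G) := by
    rw [← cv_inter hf hF hG hne]
    exact subset_inter Subset.rfl hsub
  rcases (F ∩ G).eq_empty_or_nonempty with h | h
  · obtain ⟨p, hp⟩ := Sys.scc_nonempty (cv_scc hf hF)
    have h2 := h1 hp
    rw [h] at h2
    exact h2
  · obtain ⟨-, h2, -, -, h3, -⟩ := (two_inter hF.1 hG.1 hF.2 hG.2 hne).2 h
    obtain ⟨x, hx, hxF, hxn, hxc⟩ := cv_ext hf hF h2 h3
    have h4 : f (sec f x) ∈ F ∩ G := h1 hxc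
    rw [sec_spec (ext_uniq hf hx)] at h4
    exact hxn h4

theorem flat_conv (hF : Two f F) (hG : Two f G) (h : Flat f F G) :
    ∃ Q, IsComp (cv f F ∪ cv f G)ᶜ Q ∧
      ∀ p, f p ∈ (hul f).extremePoints ℝ → f p ∉ F → f p ∉ G → p ∈ Q := by
  obtain ⟨q, hq, h1⟩ := h
  refine ⟨_, isComp_of (A := (cv f F ∪ cv f G)ᶜ) hq, ?_⟩
  intro p hp hpF hpG
  by_contra hcon
  rcases ext_conv hF hG hp (h1 p hcon) with h2 | h2
  · exact hpF h2
  · exact hpG h2

/-- the system of a tight map -/
noncomputable def sysOf (hM : Surf M) (hf : Tight f) (hfull : affineSpan ℝ (range f) = ⊤)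
    (hd : 6 ≤ Module.finrank ℝ E) : Sys M E where
  f := f
  K := hul f
  ext := (hul f).extremePoints ℝ
  edge := Edge (hul f)
  EE := {F | Ess f F}
  c := cv f
  c_scc := fun F hF => cv_scc hf hF.1
  c_closed := fun F hF => (cv_compact hf hF.1).isClosed
  c_pre := fun F hF => cv_conn hf hF.1
  c_diff := fun F hF G hG hne => cv_sdiff hf hF.1 hG.1 hne
  c_nsub := fun F hF G hG hne => cv_nsub hf hF.1 hG.1 hne
  c_inter := fun F hF G hG hne => cv_inter hf hF.1 hG.1 hne
  c_sub := fun F hF p hp => cv_sub hF.1 hp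
  c_ext := fun F hF p hp hpF => ext_rb hF.1.1 hF.1.2 hp hpF
  c_cases := fun F hF p hp => rb_cases hF.1.1 hF.1.2 hp
  hat := by
    intro x hx
    obtain ⟨p, hp⟩ := ext_uniq hf hx
    refine ⟨p, ?_, ?_⟩
    · have : p ∈ f ⁻¹' {x} := by rw [hp]; rfl
      exact this
    · intro q hq
      have : q ∈ f ⁻¹' {x} := hq
      rw [hp] at this
      exact this
  inter := by
    intro F hF G hG hne
    rcases (F ∩ G).eq_empty_or_nonempty with h | h
    · exact Or.inl h
    · right
      obtain ⟨h1, -, -, h2, -, -⟩ := (two_inter hF.1.1 hG.1.1 hF.1.2 hG.1.2 hne).2 h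
      exact face_cases h1 h2
  edge_ends := by
    intro e he
    obtain ⟨x, y, hx, hy, hxy, -, h1⟩ := edge_ends' he
    exact ⟨x, hx, y, hy, hxy, h1⟩
  edge_face := by
    intro e he F hF y hy
    exact edge_face' hul_convex (hul_compact hf) he hF.1.1 hy.1 hy.2
  edge_two := by
    intro F hF v hv e₁ h₁ e₂ h₂ e₃ h₃ f₁ f₂ f₃ v₁ v₂ v₃
    exact edge_two' hul_convex hF.1.2 hv h₁ h₂ h₃ f₁ f₂ f₃ v₁ v₂ v₃
  edge_inj := fun e he e' he' h => edge_inj' he he' h
  edge_conv := fun e he F hF h => edge_conv' he hF.1.1.2.1 h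
  three := fun F hF => three' hF.1.1 hF.1.2
  edge_seg := by
    intro e he y hy hye v hv
    obtain ⟨hve, hvx⟩ := hv
    have hsub : segment ℝ v y ⊆ e := he.1.2.1.segment_subset hve hy
    have hK := he.1.subset
    refine ⟨f ⁻¹' segment ℝ v y, ?_, ?_, ?_, ?_, ?_⟩
    · exact conn_preimage hf.cont (hsub.trans (edge_uniq hf he.1 he.2))
        (convex_segment v y).isPreconnected
    · intro p hp
      show f p ∈ segment ℝ v y
      rw [hp]
      exact right_mem_segment ℝ _ _
    · intro p hp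
      show f p ∈ segment ℝ v y
      rw [hp]
      exact left_mem_segment ℝ _ _
    · intro p hp
      exact hsub hp
    · intro p hp hpx
      rcases ext_seg hpx (hK hve) (hK hy) hp with h1 | h1
      · exact h1
      · rw [h1] at hpx
        exact absurd hpx hye
  flat := by
    intro F hF G hG hne hs hn
    have h1 := dim_union_inter hn
    have h2 := hF.1.2
    have h3 := hG.1.2
    exact flat_conv hF.1 hG.1 (flat_of_dim hf hfull hF.1 hG.1 (by omega) hs)
  flat_or := by
    intro F hF G hG hne hs hn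
    by_cases hfl : Flat f F G
    · exact Or.inl (flat_conv hF.1 hG.1 hfl)
    · right
      have h1 := dim_union hF.1.1.2.2.2 hG.1.1.2.2.2
      have h2 := hF.1.2
      have h3 := hG.1.2
      have h4 : ¬ (dimc (F ∪ G) + 2 ≤ Module.finrank ℝ E) := fun h =>
        hfl (flat_of_dim hf hfull hF.1 hG.1 h hs)
      have h5 : dimc (F ∪ G) = 5 := by omega
      have h6 : Module.finrank ℝ E = 6 := by omega
      obtain ⟨ell, t, p, q, k1, k2, k3, k4, k5, k6, k7, k8, k9, k10, k11⟩ :=
        hyper hf hfull hF.1 hG.1 (by omega) hs hfl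
      refine ⟨ell, t, _, _, isComp_of (A := (cv f F ∪ cv f G)ᶜ) k2,
        isComp_of (A := (cv f F ∪ cv f G)ᶜ) k3, ?_, k7, k8, ?_, ?_, k11, h5, h6⟩
      · intro he
        apply k4
        rw [he]
        exact mem_connectedComponentIn k3
      · intro r hr hrF hrG
        constructor
        · intro hrt
          rcases ext_conv hF.1 hG.1 hr (k10 r hrt) with h | h
          · exact hrF h
          · exact hrG h
        · by_contra hcon
          push Not at hcon
          rcases ext_conv hF.1 hG.1 hr (k9 r hcon.1 hcon.2) with h | h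
          · exact hrF h
          · exact hrG h
      · intro x hx
        exact (k1 x).1 (subset_affineSpan ℝ _ hx)
  lim := by
    rintro F hF G hG hne hs W ⟨w, hw, rfl⟩
    exact (comp_limits hM hf hF hG hs hw).1
  N := (few hM).choose + 1
  t8 := by
    intro F hF hinj
    by_contra hcon
    push Not at hcon
    have hN := (few hM).choose_spec
    have h1 := hN (Fin ((few hM).choose + 1)) (fun i => cv f (F i)) (fun i => cv_scc hf (hF i).1)
      (fun i j hij => cv_inter_triv hf (hF i).1 (hF j).1 (fun h => hij (hinj h)))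
      (fun i j hij => hcon i j hij)
    rw [Fintype.card_fin] at h1
    omega
  t5a := by
    rintro X hX x hx W₁ W₂ W₃ ⟨w₁, hw₁, rfl⟩ ⟨w₂, hw₂, rfl⟩ ⟨w₃, hw₃, rfl⟩ h1 h2 h3
    rcases adj_two hM hX hx h1 h2 h3 with h | h | h
    · left
      exact connectedComponentIn_eq h
    · right
      left
      exact connectedComponentIn_eq h
    · right
      right
      exact connectedComponentIn_eq h
  t5b := by
    rintro X hX τ hτ hτX ha - W ⟨w, hw, rfl⟩ hne
    exact adj_const hM hX hτX hτ ha hne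
  arc := fun γ B h1 h2 x hx => arcPt_of_scc γ B h1 h2 x hx
  e6 := by
    intro F hF h5 ell m s t h02 k02 h13 k13 p1 p3 p0 p2
    have hface : ∀ i, IsFace (hul f) (F i) := fun i => (hF i).1.1
    have hgt : ∀ (i : Fin 4) (g : E →L[ℝ] ℝ) (c : ℝ),
        (∀ x ∈ (hul f).extremePoints ℝ ∩ F i, c < g x) → ∀ x ∈ F i, c < g x := by
      intro i g c h x hx
      rw [← face_hull (hface i)] at hx
      exact (convexHull_min (fun y hy => h y hy.symm)
        (convex_halfSpace_gt g.toLinearMap.isLinear c)) hx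
    have hlt : ∀ (i : Fin 4) (g : E →L[ℝ] ℝ) (c : ℝ),
        (∀ x ∈ (hul f).extremePoints ℝ ∩ F i, g x < c) → ∀ x ∈ F i, g x < c := by
      intro i g c h x hx
      rw [← face_hull (hface i)] at hx
      exact (convexHull_min (fun y hy => h y hy.symm)
        (convex_halfSpace_lt g.toLinearMap.isLinear c)) hx
    exact e6_main (h5 0 1 (by decide)).2 hul_convex (hul_compact hf).isBounded F
      (fun i => (hface i).2.1) (fun i => (hface i).2.2.2) (fun i => (hface i).subset)
      (fun i => (hF i).1.2) (fun i j hij => (h5 i j hij).1) ell m s t h02 k02 h13 k13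
      (hgt 1 ell s p1) (hlt 3 ell s p3) (hgt 0 m t p0) (hlt 2 m t p2)

theorem ess_finite (hM : Surf M) (hf : Tight f) (hfull : affineSpan ℝ (range f) = ⊤)
    (hd : 6 ≤ Module.finrank ℝ E) : {F | Ess f F}.Finite :=
  (sysOf hM hf hfull hd).finite

end inst

end Pool.Agent.H10.PO
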