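import Mathlib

/-!
# Part E (helper10): the abstract lemma behind E6

`U` of dimension at least 5, `A ⊆ U` bounded, `h = 1` on `A`, the cone over `A` has an interior point `w₀`.
Every functional which is nonnegative on `A` is, in two ways (`p = 0, 1`), a sum of two such functionals which vanish on
`N p 0`, `N p 1`.  If `N 0 i ⊔ N 1 j` has codimension at most 1 for all `i, j`: contradiction.
Proof: `Q = {φ | φ ≥ 0 on A, φ w₀ = 1}` is compact convex and has at most four extreme points; so there is `w ≠ 0` with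
`φ w = 0` for all `φ ∈ Q` (Krein-Milman); but `h / h w₀ + ε ξ ∈ Q` for all `ξ` with `ξ w₀ = 0`.
-/

namespace Pool.Agent.H10.PO

open Set Filter Topology

theorem lemB {U : Type*} [NormedAddCommGroup U] [NormedSpace ℝ U] [FiniteDimensional ℝ U]
    (h5 : 5 ≤ Module.finrank ℝ U) (A : Set U) (hb : ∃ R : ℝ, ∀ a ∈ A, ‖a‖ ≤ R)
    (h : U →L[ℝ] ℝ) (hh : ∀ a ∈ A, h a = 1) (w₀ : U)
    (hint : ∃ r : ℝ, 0 < r ∧ ∀ u : U, ‖u‖ ≤ r → ∃ c : ℝ, 0 ≤ c ∧ ∃ a ∈ A, w₀ + u = c • a)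
    (N : Fin 2 → Fin 2 → Submodule ℝ U)
    (hdec : ∀ p, ∀ φ : U →L[ℝ] ℝ, (∀ a ∈ A, 0 ≤ φ a) → ∃ ψ : Fin 2 → (U →L[ℝ] ℝ),
      φ = ψ 0 + ψ 1 ∧ ∀ i, (∀ a ∈ A, 0 ≤ ψ i a) ∧ ∀ n ∈ N p i, ψ i n = 0)
    (hN : ∀ i j, Module.finrank ℝ U ≤ Module.finrank ℝ (N 0 i ⊔ N 1 j : Submodule ℝ U) + 1) :
    False := by
  classical
  obtain ⟨r, hr, hint⟩ := hint
  obtain ⟨R, hR⟩ := hb
  -- a functional which is nonnegative on `A` is nonnegative on `w₀ + small`
  have hnn : ∀ ψ : U →L[ℝ] ℝ, (∀ a ∈ A, 0 ≤ ψ a) → ∀ u : U, ‖u‖ ≤ r → 0 ≤ ψ w₀ + ψ u := by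
    intro ψ hψ u hu
    obtain ⟨c, hc, a, ha, hac⟩ := hint u hu
    rw [← map_add, hac, map_smul, smul_eq_mul]
    exact mul_nonneg hc (hψ a ha)
  have hnn0 : ∀ ψ : U →L[ℝ] ℝ, (∀ a ∈ A, 0 ≤ ψ a) → 0 ≤ ψ w₀ := by
    intro ψ hψ
    have := hnn ψ hψ 0 (by simpa using hr.le)
    simpa using this
  -- bound
  have hbd : ∀ ψ : U →L[ℝ] ℝ, (∀ a ∈ A, 0 ≤ ψ a) → ‖ψ‖ ≤ ψ w₀ / r := by
    intro ψ hψ
    refine ContinuousLinearMap.opNorm_le_bound _ (div_nonneg (hnn0 ψ hψ) hr.le) ?_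
    intro u
    rcases eq_or_ne u 0 with rfl | hu
    · simp
    have hu' : 0 < ‖u‖ := norm_pos_iff.2 hu
    have hs : ‖(r / ‖u‖) • u‖ = r := by
      rw [norm_smul, Real.norm_of_nonneg (div_nonneg hr.le hu'.le), div_mul_cancel₀ _ hu'.ne']
    have h1 := hnn ψ hψ ((r / ‖u‖) • u) hs.le
    have h2 := hnn ψ hψ (-((r / ‖u‖) • u)) (by rw [norm_neg, hs])
    rw [map_smul, smul_eq_mul] at h1
    rw [map_neg, map_smul, smul_eq_mul] at h2
    have h3 : r / ‖u‖ * |ψ u| ≤ ψ w₀ := by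
      rcases abs_cases (ψ u) with ⟨e, -⟩ | ⟨e, -⟩ <;> rw [e]
      · linarith
      · linarith
    rw [Real.norm_eq_abs]
    have h4 : |ψ u| = (r / ‖u‖ * |ψ u|) * (‖u‖ / r) := by
      field_simp
    rw [h4]
    have h5 : ψ w₀ / r * ‖u‖ = ψ w₀ * (‖u‖ / r) := by ring
    rw [h5]
    exact mul_le_mul_of_nonneg_right h3 (by positivity)
  -- zero at `w₀`
  have hz : ∀ ψ : U →L[ℝ] ℝ, (∀ a ∈ A, 0 ≤ ψ a) → ψ w₀ = 0 → ψ = 0 := by
    intro ψ hψ h0
    have := hbd ψ hψ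
    rw [h0, zero_div] at this
    exact norm_le_zero_iff.1 this
  obtain ⟨c0, -, a0, ha0, -⟩ := hint 0 (by simpa using hr.le)
  have hhA : ∀ a ∈ A, 0 ≤ h a := fun a ha => by rw [hh a ha]; norm_num
  have hhw : 0 < h w₀ := by
    rcases (hnn0 h hhA).lt_or_eq with h1 | h1
    · exact h1
    · have h2 := hz h hhA h1.symm
      have h3 := hh a0 ha0
      rw [h2] at h3
      simp at h3
  -- the set `Q`
  set Q : Set (U →L[ℝ] ℝ) := {φ | (∀ a ∈ A, 0 ≤ φ a) ∧ φ w₀ = 1} with hQ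
  have hQc : Convex ℝ Q := by
    intro φ hφ ψ hψ a b ha hb hab
    refine ⟨fun x hx => ?_, ?_⟩
    · simp only [ContinuousLinearMap.add_apply, ContinuousLinearMap.smul_apply, smul_eq_mul]
      have h1 := mul_nonneg ha (hφ.1 x hx)
      have h2 := mul_nonneg hb (hψ.1 x hx)
      linarith
    · simp only [ContinuousLinearMap.add_apply, ContinuousLinearMap.smul_apply, smul_eq_mul]
      rw [hφ.2, hψ.2]
      linarith
  have hev : ∀ x : U, Continuous fun φ : U →L[ℝ] ℝ => φ x := fun x =>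
    (ContinuousLinearMap.apply ℝ ℝ x).continuous
  have hQcl : IsClosed Q := by
    have h1 : Q = (⋂ a ∈ A, {φ : U →L[ℝ] ℝ | 0 ≤ φ a}) ∩ {φ : U →L[ℝ] ℝ | φ w₀ = 1} := by
      ext φ
      simp [hQ]
    rw [h1]
    refine IsClosed.inter (isClosed_biInter fun a _ => isClosed_le continuous_const (hev a))
      (isClosed_eq (hev w₀) continuous_const)
  have hQb : Bornology.IsBounded Q := by
    refine (Metric.isBounded_iff_subset_closedBall (0 : U →L[ℝ] ℝ)).2 ⟨1 / r, ?_⟩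
    intro φ hφ
    rw [mem_closedBall_zero_iff]
    have := hbd φ hφ.1
    rwa [hφ.2] at this
  have hprop : ProperSpace (U →L[ℝ] ℝ) := FiniteDimensional.proper ℝ _
  have hQk : IsCompact Q := Metric.isCompact_of_isClosed_isBounded hQcl hQb
  -- extreme points
  have hext : ∀ φ ∈ Q.extremePoints ℝ, ∀ p, ∃ i, ∀ n ∈ N p i, φ n = 0 := by
    intro φ hφ p
    obtain ⟨ψ, h1, h2⟩ := hdec p φ hφ.1.1
    have c0 := hnn0 (ψ 0) (h2 0).1
    have c1 := hnn0 (ψ 1) (h2 1).1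
    have hs : ψ 0 w₀ + ψ 1 w₀ = 1 := by
      have := hφ.1.2
      rw [h1] at this
      simpa using this
    rcases c0.lt_or_eq with c0 | c0
    · rcases c1.lt_or_eq with c1 | c1
      · refine ⟨0, ?_⟩
        have m0 : (ψ 0 w₀)⁻¹ • ψ 0 ∈ Q := by
          refine ⟨fun a ha => ?_, ?_⟩
          · simp only [ContinuousLinearMap.smul_apply, smul_eq_mul]
            exact mul_nonneg (inv_nonneg.2 c0.le) ((h2 0).1 a ha)
          · simp only [ContinuousLinearMap.smul_apply, smul_eq_mul]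
            exact inv_mul_cancel₀ c0.ne'
        have m1 : (ψ 1 w₀)⁻¹ • ψ 1 ∈ Q := by
          refine ⟨fun a ha => ?_, ?_⟩
          · simp only [ContinuousLinearMap.smul_apply, smul_eq_mul]
            exact mul_nonneg (inv_nonneg.2 c1.le) ((h2 1).1 a ha)
          · simp only [ContinuousLinearMap.smul_apply, smul_eq_mul]
            exact inv_mul_cancel₀ c1.ne'
        have hseg : φ ∈ openSegment ℝ ((ψ 0 w₀)⁻¹ • ψ 0) ((ψ 1 w₀)⁻¹ • ψ 1) := by
          refine ⟨ψ 0 w₀, ψ 1 w₀, c0, c1, hs, ?_⟩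
          rw [smul_smul, smul_smul, mul_inv_cancel₀ c0.ne', mul_inv_cancel₀ c1.ne', one_smul,
            one_smul, ← h1]
        have he : (ψ 0 w₀)⁻¹ • ψ 0 = φ := hφ.2 m0 m1 hseg
        intro n hn
        rw [← he, ContinuousLinearMap.smul_apply, (h2 0).2 n hn, smul_zero]
      · refine ⟨0, fun n hn => ?_⟩
        have := hz (ψ 1) (h2 1).1 c1.symm
        rw [h1, this, add_zero]
        exact (h2 0).2 n hn
    · refine ⟨1, fun n hn => ?_⟩
      have := hz (ψ 0) (h2 0).1 c0.symm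
      rw [h1, this, zero_add]
      exact (h2 1).2 n hn
  -- uniqueness for given `i, j`
  have huniq : ∀ i j, ∀ φ ∈ Q, ∀ φ' ∈ Q, (∀ n ∈ N 0 i, φ n = 0) → (∀ n ∈ N 1 j, φ n = 0) →
      (∀ n ∈ N 0 i, φ' n = 0) → (∀ n ∈ N 1 j, φ' n = 0) → φ = φ' := by
    intro i j φ hφ φ' hφ' h1 h2 h3 h4
    have hP : N 0 i ⊔ N 1 j ≤ LinearMap.ker (φ : U →ₗ[ℝ] ℝ) := by
      refine sup_le (fun n hn => ?_) (fun n hn => ?_)
      · exact h1 n hn
      · exact h2 n hn
    have hP' : N 0 i ⊔ N 1 j ≤ LinearMap.ker ((φ - φ' : U →L[ℝ] ℝ) : U →ₗ[ℝ] ℝ) := by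
      refine sup_le (fun n hn => ?_) (fun n hn => ?_)
      · show φ n - φ' n = 0
        rw [h1 n hn, h3 n hn, sub_self]
      · show φ n - φ' n = 0
        rw [h2 n hn, h4 n hn, sub_self]
    have hw : w₀ ∉ LinearMap.ker (φ : U →ₗ[ℝ] ℝ) := by
      intro hw
      have : φ w₀ = 0 := hw
      rw [hφ.2] at this
      exact one_ne_zero this
    have hlt : LinearMap.ker (φ : U →ₗ[ℝ] ℝ) < LinearMap.ker (φ : U →ₗ[ℝ] ℝ) ⊔ Submodule.span ℝ {w₀} := by
      refine lt_of_le_of_ne le_sup_left ?_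
      intro he
      apply hw
      rw [he]
      exact Submodule.mem_sup_right (Submodule.mem_span_singleton_self _)
    have hlt2 : N 0 i ⊔ N 1 j < (N 0 i ⊔ N 1 j) ⊔ Submodule.span ℝ {w₀} := by
      refine lt_of_le_of_ne le_sup_left ?_
      intro he
      apply hw
      apply hP
      rw [he]
      exact Submodule.mem_sup_right (Submodule.mem_span_singleton_self _)
    have hf := Submodule.finrank_lt_finrank_of_lt hlt2
    have htop : (N 0 i ⊔ N 1 j) ⊔ Submodule.span ℝ {w₀} = ⊤ := by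
      apply Submodule.eq_top_of_finrank_eq
      apply le_antisymm (Submodule.finrank_le _)
      have := hN i j
      omega
    have hall : (⊤ : Submodule ℝ U) ≤ LinearMap.ker ((φ - φ' : U →L[ℝ] ℝ) : U →ₗ[ℝ] ℝ) := by
      rw [← htop]
      refine sup_le hP' ?_
      rw [Submodule.span_singleton_le_iff_mem]
      show φ w₀ - φ' w₀ = 0
      rw [hφ.2, hφ'.2, sub_self]
    ext u
    have hu : φ u - φ' u = 0 := hall (Submodule.mem_top (x := u))
    linarith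
  -- the vector `w`
  obtain ⟨Φ, hΦ⟩ : ∃ Φ : Fin 2 → Fin 2 → (U →L[ℝ] ℝ), ∀ φ ∈ Q.extremePoints ℝ, ∃ i j, φ = Φ i j := by
    have : ∀ i j : Fin 2, ∃ χ : U →L[ℝ] ℝ, ∀ φ ∈ Q, (∀ n ∈ N 0 i, φ n = 0) →
        (∀ n ∈ N 1 j, φ n = 0) → φ = χ := by
      intro i j
      by_cases hex : ∃ χ ∈ Q, (∀ n ∈ N 0 i, χ n = 0) ∧ (∀ n ∈ N 1 j, χ n = 0)
      · obtain ⟨χ, h1, h2, h3⟩ := hex
        exact ⟨χ, fun φ hφ h4 h5 => huniq i j φ hφ χ h1 h4 h5 h2 h3⟩
      · exact ⟨0, fun φ hφ h4 h5 => absurd ⟨φ, hφ, h4, h5⟩ hex⟩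
    choose Φ hΦ using this
    refine ⟨Φ, fun φ hφ => ?_⟩
    obtain ⟨i, hi⟩ := hext φ hφ 0
    obtain ⟨j, hj⟩ := hext φ hφ 1
    exact ⟨i, j, hΦ i j φ hφ.1 hi hj⟩
  obtain ⟨w, hw0, hw⟩ : ∃ w : U, w ≠ 0 ∧ ∀ i j, Φ i j w = 0 := by
    let T : U →ₗ[ℝ] (Fin 2 × Fin 2 → ℝ) := LinearMap.pi fun k => (Φ k.1 k.2 : U →ₗ[ℝ] ℝ)
    have hlt : Module.finrank ℝ (Fin 2 × Fin 2 → ℝ) < Module.finrank ℝ U := by
      simp
      omega
    have hk := LinearMap.ker_ne_bot_of_finrank_lt (f := T) hlt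
    obtain ⟨w, hw, hw0⟩ := (Submodule.ne_bot_iff _).1 hk
    refine ⟨w, hw0, fun i j => ?_⟩
    exact congrFun (LinearMap.mem_ker.1 hw) (i, j)
  have hwQ : ∀ φ ∈ Q, φ w = 0 := by
    intro φ hφ
    rw [← closure_convexHull_extremePoints hQk hQc] at hφ
    have hcl : IsClosed {φ : U →L[ℝ] ℝ | φ w = 0} := isClosed_eq (hev w) continuous_const
    have hcv : Convex ℝ {φ : U →L[ℝ] ℝ | φ w = 0} := by
      intro φ hφ ψ hψ a b ha hb hab
      show a * φ w + b * ψ w = 0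
      rw [show φ w = 0 from hφ, show ψ w = 0 from hψ]
      ring
    refine (closure_minimal (convexHull_min ?_ hcv) hcl) hφ
    intro φ hφ
    obtain ⟨i, j, rfl⟩ := hΦ φ hφ
    exact hw i j
  -- the contradiction
  apply hw0
  have hh0 : (h w₀)⁻¹ • h ∈ Q := by
    refine ⟨fun a ha => ?_, ?_⟩
    · simp only [ContinuousLinearMap.smul_apply, smul_eq_mul]
      exact mul_nonneg (inv_nonneg.2 hhw.le) (hhA a ha)
    · simp only [ContinuousLinearMap.smul_apply, smul_eq_mul]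
      exact inv_mul_cancel₀ hhw.ne'
  have hhw0 : h w = 0 := by
    have := hwQ _ hh0
    simp only [ContinuousLinearMap.smul_apply, smul_eq_mul] at this
    rcases mul_eq_zero.1 this with h1 | h1
    · exact absurd h1 (inv_ne_zero hhw.ne')
    · exact h1
  have hR0 : 0 ≤ R := (norm_nonneg a0).trans (hR a0 ha0)
  have hξ : ∀ ξ : U →L[ℝ] ℝ, ξ w₀ = 0 → ξ w = 0 := by
    intro ξ hξ0
    obtain ⟨ε, hε, hεb⟩ : ∃ ε : ℝ, 0 < ε ∧ ε * (‖ξ‖ * R) ≤ (h w₀)⁻¹ := by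
      refine ⟨(h w₀)⁻¹ / (‖ξ‖ * R + 1), by positivity, ?_⟩
      rw [div_mul_eq_mul_div, div_le_iff₀ (by positivity)]
      have : 0 < (h w₀)⁻¹ := inv_pos.2 hhw
      nlinarith
    have hm : (h w₀)⁻¹ • h + ε • ξ ∈ Q := by
      refine ⟨fun a ha => ?_, ?_⟩
      · simp only [ContinuousLinearMap.add_apply, ContinuousLinearMap.smul_apply, smul_eq_mul]
        rw [hh a ha, mul_one]
        have h1 : |ξ a| ≤ ‖ξ‖ * R := by
          rw [← Real.norm_eq_abs]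
          exact (ξ.le_opNorm a).trans (mul_le_mul_of_nonneg_left (hR a ha) (norm_nonneg _))
        have h2 := neg_abs_le (ξ a)
        nlinarith
      · simp only [ContinuousLinearMap.add_apply, ContinuousLinearMap.smul_apply, smul_eq_mul]
        rw [hξ0, inv_mul_cancel₀ hhw.ne']
        ring
    have := hwQ _ hm
    simp only [ContinuousLinearMap.add_apply, ContinuousLinearMap.smul_apply, smul_eq_mul] at this
    rw [hhw0, mul_zero, zero_add] at this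
    rcases mul_eq_zero.1 this with h1 | h1
    · exact absurd h1 hε.ne'
    · exact h1
  have hη : ∀ η : U →L[ℝ] ℝ, η w = 0 := by
    intro η
    have h1 := hξ (η - (η w₀ * (h w₀)⁻¹) • h) (by
      simp only [ContinuousLinearMap.sub_apply, ContinuousLinearMap.smul_apply, smul_eq_mul]
      field_simp
      ring)
    simp only [ContinuousLinearMap.sub_apply, ContinuousLinearMap.smul_apply, smul_eq_mul] at h1
    rw [hhw0] at h1
    linarith
  by_contra hne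
  obtain ⟨g, hg1, hg2⟩ := exists_dual_vector ℝ w (norm_ne_zero_iff.2 hne)
  rw [hη g] at hg2
  have : ‖w‖ = 0 := by
    have := hg2.symm
    simpa using this
  exact hne (norm_eq_zero.1 this)

end Pool.Agent.H10.PO
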