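import Pool.Agent.H10.PO.Flat

/-!
# Part E (helper10): intersecting pairs (E4)
-/

namespace Pool.Agent.H10.PO

open Set Filter Topology Pool.Agent.H61.PO

theorem fin_three {α : Type*} {S : Set α}
    (h : ∀ a ∈ S, ∀ b ∈ S, ∀ c ∈ S, a = b ∨ a = c ∨ b = c) : S.Finite := by
  by_cases h0 : ∃ a ∈ S, ∃ b ∈ S, a ≠ b
  · obtain ⟨a, ha, b, hb, hab⟩ := h0
    refine (Set.toFinite {a, b}).subset ?_
    intro c hc
    rcases h a ha b hb c hc with h1 | h1 | h1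
    · exact absurd h1 hab
    · exact Or.inl h1.symm
    · exact Or.inr h1.symm
  · push Not at h0
    exact Set.Subsingleton.finite fun a ha b hb => h0 a ha b hb

theorem pigeon5 : ∀ g : Fin 5 → Bool, ∃ i j k : Fin 5, i ≠ j ∧ i ≠ k ∧ j ≠ k ∧ g i = g j ∧ g i = g k := by
  decide

namespace Sys

variable {M E : Type*} [TopologicalSpace M] [NormedAddCommGroup E] [NormedSpace ℝ E] (S : Sys M E)

theorem edges_at {F : Set E} (hF : F ∈ S.EE) {v : E} (hv : v ∈ S.ext) :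
    {e | e ∈ S.edge ∧ e ⊆ F ∧ v ∈ e}.Finite := by
  apply fin_three
  rintro a ⟨ha1, ha2, ha3⟩ b ⟨hb1, hb2, hb3⟩ c ⟨hc1, hc2, hc3⟩
  exact S.edge_two F hF v hv a ha1 b hb1 c hc1 ha2 hb2 hc2 ha3 hb3 hc3

/-- at most two extreme points in the intersection -/
theorem ext_inter {F G : Set E} (hF : F ∈ S.EE) (hG : G ∈ S.EE) (hne : F ≠ G) :
    ∃ v w : E, S.ext ∩ (F ∩ G) ⊆ {v, w} := by
  rcases S.inter F hF G hG hne with h | ⟨v, -, h⟩ | h
  · refine ⟨0, 0, ?_⟩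
    rw [h]
    simp
  · refine ⟨v, v, ?_⟩
    rw [h]
    rintro x ⟨-, hx⟩
    exact Or.inl hx
  · obtain ⟨v, -, w, -, -, hvw⟩ := S.edge_ends _ h
    refine ⟨v, w, ?_⟩
    rw [inter_comm, hvw]

theorem edge_ext {e : Set E} (he : e ∈ S.edge) : ∃ v ∈ S.ext, v ∈ e := by
  obtain ⟨v, hv, w, hw, hne, hvw⟩ := S.edge_ends e he
  have : v ∈ e ∩ S.ext := by rw [hvw]; exact Or.inl rfl
  exact ⟨v, hv, this.1⟩

/-- a member meeting an edge contains an end of it -/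
theorem edge_meet {e : Set E} (he : e ∈ S.edge) {F : Set E} (hF : F ∈ S.EE)
    (h : (e ∩ F).Nonempty) : ∃ v ∈ S.ext, v ∈ e ∧ v ∈ F := by
  obtain ⟨y, hy⟩ := h
  rcases S.edge_face e he F hF y hy with h1 | h1
  · exact ⟨y, h1, hy.1, hy.2⟩
  · obtain ⟨v, hv, hve⟩ := S.edge_ext he
    exact ⟨v, hv, hve, h1 hve⟩

/-- a member meeting the intersection of two others contains an extreme point of it -/
theorem inter_meet {F G H : Set E} (hF : F ∈ S.EE) (hG : G ∈ S.EE) (hne : F ≠ G) (hH : H ∈ S.EE)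
    (h : (F ∩ G ∩ H).Nonempty) : ∃ v ∈ S.ext, v ∈ F ∩ G ∧ v ∈ H := by
  rcases S.inter F hF G hG hne with h0 | ⟨v, hv, h0⟩ | h0
  · rw [h0] at h
    simp at h
  · rw [h0] at h ⊢
    obtain ⟨y, hy1, hy2⟩ := h
    exact ⟨v, hv, rfl, (show y = v from hy1) ▸ hy2⟩
  · exact S.edge_meet h0 hH h

section C

variable {u : Ultrafilter (Set E)} (hEE : ∀ᶠ F in (u : Filter (Set E)), F ∈ S.EE)
  (hC : ∀ v ∈ S.ext, ∀ᶠ F in (u : Filter (Set E)), v ∉ F)

include hEE hC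

theorem ev_edge {e : Set E} (he : e ∈ S.edge) : ∀ᶠ H in (u : Filter (Set E)), e ∩ H = ∅ := by
  obtain ⟨v, hv, w, hw, hne, hvw⟩ := S.edge_ends e he
  filter_upwards [hEE, hC v hv, hC w hw] with H h1 h2 h3
  rw [Set.eq_empty_iff_forall_notMem]
  intro y hy
  obtain ⟨x, hx, hxe, hxH⟩ := S.edge_meet he h1 ⟨y, hy⟩
  have : x ∈ ({v, w} : Set E) := hvw ▸ ⟨hxe, hx⟩
  rcases this with h4 | h4
  · exact h2 (h4 ▸ hxH)
  · exact h3 ((show x = w from h4) ▸ hxH)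

theorem ev_inter {F G : Set E} (hF : F ∈ S.EE) (hG : G ∈ S.EE) (hne : F ≠ G) :
    ∀ᶠ H in (u : Filter (Set E)), F ∩ G ∩ H = ∅ := by
  rcases S.inter F hF G hG hne with h | ⟨v, hv, h⟩ | h
  · filter_upwards with H
    rw [h, Set.empty_inter]
  · filter_upwards [hC v hv] with H hH
    rw [h, Set.singleton_inter_eq_empty]
    exact hH
  · exact S.ev_edge hEE hC h

/-- no arrow `F → G` for most `G` -/
theorem ev_noarrow {F₁ F : Set E} (hF₁ : F₁ ∈ S.EE) (hF : F ∈ S.EE) (hne : F ≠ F₁) :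
    ∀ᶠ G in (u : Filter (Set E)), ∀ e ∈ S.edge, e ⊆ F → e ∩ F₁ = ∅ ∨ e ∩ G = ∅ := by
  have hfin : {e | e ∈ S.edge ∧ e ⊆ F ∧ (e ∩ F₁).Nonempty}.Finite := by
    have h1 : {e | e ∈ S.edge ∧ e ⊆ F ∧ (e ∩ F₁).Nonempty} ⊆
        ⋃ v ∈ S.ext ∩ (F ∩ F₁), {e | e ∈ S.edge ∧ e ⊆ F ∧ v ∈ e} := by
      rintro e ⟨he, heF, hne'⟩
      obtain ⟨v, hv, hve, hvF⟩ := S.edge_meet he hF₁ hne'
      exact mem_iUnion₂.2 ⟨v, ⟨hv, heF hve, hvF⟩, he, heF, hve⟩
    refine Set.Finite.subset ?_ h1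
    obtain ⟨v, w, hvw⟩ := S.ext_inter hF hF₁ hne
    exact ((Set.toFinite {v, w}).subset hvw).biUnion fun x hx => S.edges_at hF hx.1
  have h2 : ∀ᶠ G in (u : Filter (Set E)),
      ∀ e ∈ {e | e ∈ S.edge ∧ e ⊆ F ∧ (e ∩ F₁).Nonempty}, e ∩ G = ∅ :=
    (Filter.eventually_all_finite hfin).2 fun e he => S.ev_edge hEE hC he.1
  filter_upwards [h2] with G hG e he heF
  rcases (e ∩ F₁).eq_empty_or_nonempty with h | h
  · exact Or.inl h
  · exact Or.inr (hG e ⟨he, heF, h⟩)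

/-- no arrow `G → F` for most pairs -/
theorem ev_noarrow' (hne : ∀ b : Set E, ∀ᶠ a in (u : Filter (Set E)), a ≠ b) {F₁ : Set E}
    (hF₁ : F₁ ∈ S.EE) :
    ∀ᶠ F in (u : Filter (Set E)), ∀ᶠ G in (u : Filter (Set E)),
      ∀ e ∈ S.edge, e ⊆ G → e ∩ F₁ = ∅ ∨ e ∩ F = ∅ := by
  rcases pair_dich u (fun F G => ∀ e ∈ S.edge, e ⊆ G → e ∩ F₁ = ∅ ∨ e ∩ F = ∅) with h | h
  · exact h
  exfalso
  obtain ⟨s, hs1, hs2, -⟩ := pick_many (u := u) hne
    (A := fun F => F ∈ S.EE ∧ F ≠ F₁ ∧ ∀ᶠ G in (u : Filter (Set E)),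
      ¬ ∀ e ∈ S.edge, e ⊆ G → e ∩ F₁ = ∅ ∨ e ∩ F = ∅)
    (hEE.and ((hne F₁).and h)) (P := fun _ _ => True) (fun _ _ _ => trivial)
    (Eventually.of_forall fun _ => Eventually.of_forall fun _ => trivial) 5
  have e1 : ∀ᶠ G in (u : Filter (Set E)), ∀ i : Fin 5,
      ¬ ∀ e ∈ S.edge, e ⊆ G → e ∩ F₁ = ∅ ∨ e ∩ s i = ∅ := eventually_all.2 fun i => (hs2 i).2.2
  have e2 : ∀ᶠ G in (u : Filter (Set E)), ∀ i j : Fin 5, i ≠ j → s i ∩ s j ∩ G = ∅ := by
    refine eventually_all.2 fun i => eventually_all.2 fun j => ?_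
    by_cases hij : i = j
    · exact Eventually.of_forall fun _ h' => absurd hij h'
    · filter_upwards [S.ev_inter hEE hC (hs2 i).1 (hs2 j).1 (fun he => hij (hs1 he))] with G hG _
      exact hG
  have e3 : ∀ᶠ G in (u : Filter (Set E)), ∀ i : Fin 5, s i ∩ F₁ ∩ G = ∅ :=
    eventually_all.2 fun i => S.ev_inter hEE hC (hs2 i).1 hF₁ (hs2 i).2.1
  obtain ⟨G, ⟨⟨⟨⟨h1, h2⟩, h3⟩, h4⟩, h5⟩⟩ := ((((e1.and e2).and e3).and hEE).and (hne F₁)).exists
  have h1' : ∀ i : Fin 5, ∃ e ∈ S.edge, e ⊆ G ∧ (e ∩ F₁).Nonempty ∧ (e ∩ s i).Nonempty := by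
    intro i
    have := h1 i
    push Not at this
    obtain ⟨e, he, heG, ha, hb⟩ := this
    exact ⟨e, he, heG, ha, hb⟩
  choose e he heG heF₁ hes using h1'
  choose x hx hxe hxF₁ using fun i => S.edge_meet (he i) hF₁ (heF₁ i)
  choose y hy hye hys using fun i => S.edge_meet (he i) (hs2 i).1 (hes i)
  -- the edges are different
  have hinj : ∀ i j, i ≠ j → e i ≠ e j := by
    intro i j hij hee
    obtain ⟨v, -, w, -, -, hvw⟩ := S.edge_ends (e i) (he i)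
    have m1 : x i ∈ ({v, w} : Set E) := hvw ▸ ⟨hxe i, hx i⟩
    have m2 : y i ∈ ({v, w} : Set E) := hvw ▸ ⟨hye i, hy i⟩
    have m3 : y j ∈ ({v, w} : Set E) := hvw ▸ ⟨hee ▸ hye j, hy j⟩
    have n1 : x i ≠ y i := by
      intro h
      have : x i ∈ s i ∩ F₁ ∩ G := ⟨⟨h ▸ hys i, hxF₁ i⟩, heG i (hxe i)⟩
      rw [h3 i] at this
      exact this
    have n2 : x i ≠ y j := by
      intro h
      have : x i ∈ s j ∩ F₁ ∩ G := ⟨⟨h ▸ hys j, hxF₁ i⟩, heG i (hxe i)⟩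
      rw [h3 j] at this
      exact this
    have n3 : y i ≠ y j := by
      intro h
      have : y i ∈ s i ∩ s j ∩ G := ⟨⟨hys i, h ▸ hys j⟩, heG i (hye i)⟩
      rw [h2 i j hij] at this
      exact this
    rcases m1 with m1 | m1 <;> rcases m2 with m2 | m2 <;> rcases m3 with m3 | m3
    · exact n1 (m1.trans m2.symm)
    · exact n1 (m1.trans m2.symm)
    · exact n2 (m1.trans m3.symm)
    · exact n3 (m2.trans m3.symm)
    · exact n3 (m2.trans m3.symm)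
    · exact n2 (m1.trans m3.symm)
    · exact n1 (m1.trans m2.symm)
    · exact n1 (m1.trans m2.symm)
  -- three of them at one vertex
  obtain ⟨v, w, hvw⟩ := S.ext_inter h4 hF₁ h5
  have hmem : ∀ i, x i = v ∨ x i = w := fun i => hvw ⟨hx i, heG i (hxe i), hxF₁ i⟩
  classical
  obtain ⟨i, j, k, hij, hik, hjk, g1, g2⟩ := pigeon5 (fun i => decide (x i = v))
  have hxx : ∀ a b : Fin 5, decide (x a = v) = decide (x b = v) → x a = x b := by
    intro a b hab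
    by_cases ha : x a = v
    · have hb : x b = v := by
        by_contra hb
        simp [ha, hb] at hab
      rw [ha, hb]
    · have hb : x b ≠ v := by
        intro hb
        simp [ha, hb] at hab
      rcases hmem a with h | h
      · exact absurd h ha
      · rcases hmem b with h' | h'
        · exact absurd h' hb
        · rw [h, h']
  have hij' := hxx i j g1
  have hik' := hxx i k g2
  rcases S.edge_two G h4 (x i) (hx i) (e i) (he i) (e j) (he j) (e k) (he k) (heG i) (heG j) (heG k)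
    (hxe i) (hij' ▸ hxe j) (hik' ▸ hxe k) with h | h | h
  · exact hinj i j hij h
  · exact hinj i k hik h
  · exact hinj j k hjk h

end C

/-- **E4** -/
theorem e4 {u : Ultrafilter (Set E)} (hEE : ∀ᶠ F in (u : Filter (Set E)), F ∈ S.EE)
    (hne : ∀ b : Set E, ∀ᶠ a in (u : Filter (Set E)), a ≠ b)
    (hsep : ∀ᶠ F in (u : Filter (Set E)), ∀ᶠ G in (u : Filter (Set E)), S.Sep F G)
    (hint : ∀ᶠ F in (u : Filter (Set E)), ∀ᶠ G in (u : Filter (Set E)), (F ∩ G).Nonempty) :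
    False := by
  have hflat : ∀ F ∈ S.EE, ∀ G ∈ S.EE, F ≠ G → S.Sep F G → (F ∩ G).Nonempty → S.Flat F G :=
    fun F hF G hG h1 h2 h3 => S.flat F hF G hG h1 h2 h3
  by_cases hA : ∃ e ∈ S.edge, ∀ᶠ F in (u : Filter (Set E)), e ⊆ F
  · -- a common edge
    obtain ⟨e, he, heu⟩ := hA
    obtain ⟨s, hs1, hs2, hs3⟩ := pick_many (u := u) hne (hEE.and heu)
      (P := fun F G => S.Sep F G) (fun F G h => Sep.symm S h) hsep 4
    obtain ⟨v, hv, w, hw, hvw1, hvw⟩ := S.edge_ends e he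
    have hve : v ∈ e ∩ S.ext := by rw [hvw]; exact Or.inl rfl
    have hwe : w ∈ e ∩ S.ext := by rw [hvw]; exact Or.inr rfl
    have hcap : ∀ i j, i ≠ j → s i ∩ s j = e := by
      intro i j hij
      have hsub : e ⊆ s i ∩ s j := subset_inter (hs2 i).2 (hs2 j).2
      rcases S.inter _ (hs2 i).1 _ (hs2 j).1 (fun h => hij (hs1 h)) with h | ⟨x, -, h⟩ | h
      · rw [h] at hsub
        exact absurd (hsub hve.1) (Set.notMem_empty v)
      · rw [h] at hsub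
        exact absurd ((hsub hve.1).trans (hsub hwe.1).symm) hvw1
      · refine (S.edge_inj _ he _ h ?_).symm
        obtain ⟨v', -, w', -, -, hvw'⟩ := S.edge_ends _ h
        have a1 : v ∈ ({v', w'} : Set E) := hvw' ▸ ⟨hsub hve.1, hve.2⟩
        have a2 : w ∈ ({v', w'} : Set E) := hvw' ▸ ⟨hsub hwe.1, hwe.2⟩
        rw [hvw, hvw']
        rcases a1 with a1 | a1 <;> rcases a2 with a2 | a2
        · exact absurd (a1.trans a2.symm) hvw1
        · rw [a1, show w = w' from a2]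
        · rw [show v = w' from a1, a2, Set.pair_comm]
        · exact absurd ((show v = w' from a1).trans (show w = w' from a2).symm) hvw1
    refine S.common (fun i => (hs2 i).1) hs1 hs3 (fun j hj => ?_) e hcap
    refine hflat _ (hs2 0).1 _ (hs2 j).1 (fun h => hj (hs1 h).symm) (hs3 0 j (Ne.symm hj)) ?_
    rw [hcap 0 j (Ne.symm hj)]
    exact ⟨v, hve.1⟩
  push Not at hA
  by_cases hB : ∃ v ∈ S.ext, ∀ᶠ F in (u : Filter (Set E)), v ∈ F
  · -- a common vertex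
    obtain ⟨v, hv, hvu⟩ := hB
    have hcap : ∀ᶠ F in (u : Filter (Set E)), ∀ᶠ G in (u : Filter (Set E)), F ∩ G = {v} := by
      filter_upwards [hEE, hvu] with F hF hvF
      have h2 : ∀ᶠ G in (u : Filter (Set E)),
          ∀ e ∈ {e | e ∈ S.edge ∧ e ⊆ F ∧ v ∈ e}, ¬ e ⊆ G :=
        (Filter.eventually_all_finite (S.edges_at hF hv)).2 fun e he =>
          hA e he.1
      filter_upwards [h2, hEE, hvu, hne F] with G h3 hG hvG hGF
      rcases S.inter F hF G hG (Ne.symm hGF) with h | ⟨x, -, h⟩ | h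
      · have : v ∈ F ∩ G := ⟨hvF, hvG⟩
        rw [h] at this
        exact absurd this (Set.notMem_empty v)
      · have : v ∈ F ∩ G := ⟨hvF, hvG⟩
        rw [h] at this
        rw [h, (show v = x from this)]
      · exact absurd inter_subset_right (h3 _ ⟨h, inter_subset_left, hvF, hvG⟩)
    obtain ⟨s, hs1, hs2, hs3⟩ := pick_many (u := u) hne hEE
      (P := fun F G => S.Sep F G ∧ F ∩ G = {v})
      (fun F G h => ⟨Sep.symm S h.1, by rw [inter_comm]; exact h.2⟩)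
      (by filter_upwards [hsep, hcap] with F h1 h2; exact h1.and h2) 4
    refine S.common hs2 hs1 (fun i j hij => (hs3 i j hij).1) (fun j hj => ?_) {v}
      (fun i j hij => (hs3 i j hij).2)
    refine hflat _ (hs2 0) _ (hs2 j) (fun h => hj (hs1 h).symm) (hs3 0 j (Ne.symm hj)).1 ?_
    rw [(hs3 0 j (Ne.symm hj)).2]
    exact ⟨v, rfl⟩
  push Not at hB
  have hC : ∀ v ∈ S.ext, ∀ᶠ F in (u : Filter (Set E)), v ∉ F := hB
  obtain ⟨F₁, ⟨⟨hF₁, hsep₁⟩, hint₁⟩⟩ := ((hEE.and hsep).and hint).exists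
  obtain ⟨s, hs1, hs2, hs3⟩ := pick_many (u := u) hne
    (A := fun F => (F ∈ S.EE ∧ F ≠ F₁) ∧ S.Sep F₁ F ∧ (F₁ ∩ F).Nonempty)
    ((hEE.and (hne F₁)).and (hsep₁.and hint₁))
    (P := fun F G => (∀ e ∈ S.edge, e ⊆ F → e ∩ F₁ = ∅ ∨ e ∩ G = ∅) ∧
      (∀ e ∈ S.edge, e ⊆ G → e ∩ F₁ = ∅ ∨ e ∩ F = ∅) ∧ F₁ ∩ F ∩ G = ∅)
    (fun F G h => ⟨h.2.1, h.1, by rw [inter_assoc, inter_comm G F, ← inter_assoc]; exact h.2.2⟩)
    (by
      filter_upwards [hEE, hne F₁, S.ev_noarrow' hEE hC hne hF₁] with F hF hFF₁ h1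
      filter_upwards [h1, S.ev_noarrow hEE hC hF₁ hF hFF₁, S.ev_inter hEE hC hF₁ hF (Ne.symm hFF₁)]
        with G h2 h3 h4
      exact ⟨h3, h2, h4⟩) 3
  -- the four members
  have key : ∀ j : Fin 4, j ≠ 0 → ∃ i : Fin 3, j = i.succ := fun j hj =>
    ⟨j.pred hj, (Fin.succ_pred j hj).symm⟩
  refine S.noarrow (F := Fin.cons F₁ s) ?_ ?_ ?_ ?_ ?_ ?_
  · intro i
    refine Fin.cases ?_ (fun j => ?_) i
    · simpa using hF₁
    · simpa using (hs2 j).1.1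
  · rw [Fin.cons_injective_iff]
    refine ⟨?_, hs1⟩
    rintro ⟨i, hi⟩
    exact (hs2 i).1.2 hi
  · intro j hj
    obtain ⟨i, rfl⟩ := key j hj
    simpa using (hs2 i).2.1
  · intro j hj
    obtain ⟨i, rfl⟩ := key j hj
    simpa using hflat _ hF₁ _ (hs2 i).1.1 (Ne.symm (hs2 i).1.2) (hs2 i).2.1 (hs2 i).2.2
  · intro j k hj hk hjk
    obtain ⟨i, rfl⟩ := key j hj
    obtain ⟨l, rfl⟩ := key k hk
    simpa using (hs3 i l (fun h => hjk (by rw [h]))).2.2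
  · intro j k hj hk hjk e he
    obtain ⟨i, rfl⟩ := key j hj
    obtain ⟨l, rfl⟩ := key k hk
    simpa using (hs3 i l (fun h => hjk (by rw [h]))).2.1 e he

end Sys

end Pool.Agent.H10.PO
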