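import Mathlib

/-!
# Part E (helper10): choices by an ultrafilter (instead of Ramsey's theorem)
-/

namespace Pool.Agent.H10.PO

open Set Filter Topology

theorem exists_ultra {α : Type*} {S : Set α} (hS : S.Infinite) :
    ∃ u : Ultrafilter α, (∀ᶠ a in (u : Filter α), a ∈ S) ∧ ∀ b : α, ∀ᶠ a in (u : Filter α), a ≠ b := by
  have : (cofinite ⊓ 𝓟 S).NeBot := cofinite_inf_principal_neBot_iff.2 hS
  have hle := Ultrafilter.of_le (cofinite ⊓ 𝓟 S)
  refine ⟨Ultrafilter.of (cofinite ⊓ 𝓟 S), ?_, ?_⟩
  · exact (hle.trans inf_le_right) (mem_principal_self S)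
  · intro b
    refine (hle.trans inf_le_left) ?_
    show {a : α | a ≠ b} ∈ cofinite
    rw [mem_cofinite]
    refine (Set.finite_singleton b).subset ?_
    intro a ha
    by_contra hab
    exact ha hab

/-- many members in general position with respect to a symmetric relation -/
theorem pick_many {α : Type*} {u : Ultrafilter α} (hne : ∀ b : α, ∀ᶠ a in (u : Filter α), a ≠ b)
    {A : α → Prop} (hA : ∀ᶠ a in (u : Filter α), A a) {P : α → α → Prop}
    (hsym : ∀ a b, P a b → P b a)
    (h : ∀ᶠ a in (u : Filter α), ∀ᶠ b in (u : Filter α), P a b) (m : ℕ) :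
    ∃ s : Fin m → α, Function.Injective s ∧ (∀ i, A (s i)) ∧ ∀ i j, i ≠ j → P (s i) (s j) := by
  suffices hs : ∃ s : Fin m → α, Function.Injective s ∧ (∀ i, A (s i)) ∧
      (∀ i, ∀ᶠ b in (u : Filter α), P (s i) b) ∧ ∀ i j, i ≠ j → P (s i) (s j) by
    obtain ⟨s, h1, h2, -, h3⟩ := hs
    exact ⟨s, h1, h2, h3⟩
  induction m with
  | zero =>
    exact ⟨Fin.elim0, fun i => i.elim0, fun i => i.elim0, fun i => i.elim0, fun i => i.elim0⟩
  | succ m ih =>
    obtain ⟨s, h1, h2, h3, h4⟩ := ih
    have e1 : ∀ᶠ b in (u : Filter α), ∀ i, b ≠ s i := eventually_all.2 fun i => hne (s i)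
    have e2 : ∀ᶠ b in (u : Filter α), ∀ i, P (s i) b := eventually_all.2 h3
    obtain ⟨b, ⟨⟨⟨hb1, hb2⟩, hb3⟩, hb4⟩⟩ := (((e1.and e2).and hA).and h).exists
    refine ⟨Fin.cons b s, ?_, ?_, ?_, ?_⟩
    · rw [Fin.cons_injective_iff]
      refine ⟨?_, h1⟩
      rintro ⟨i, hi⟩
      exact hb1 i hi.symm
    · intro i
      refine Fin.cases ?_ ?_ i
      · simpa using hb3
      · intro j
        simpa using h2 j
    · intro i
      refine Fin.cases ?_ ?_ i
      · simpa using hb4
      · intro j
        simpa using h3 j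
    · intro i j
      refine Fin.cases ?_ ?_ i
      · refine Fin.cases ?_ ?_ j
        · intro hij
          exact absurd rfl hij
        · intro j' _
          simpa using hsym _ _ (hb2 j')
      · intro i'
        refine Fin.cases ?_ ?_ j
        · intro _
          simpa using hb2 i'
        · intro j' hij
          simpa using h4 i' j' (fun he => hij (by rw [he]))

/-- dichotomy for pairs -/
theorem pair_dich {α : Type*} (u : Ultrafilter α) (P : α → α → Prop) :
    (∀ᶠ a in (u : Filter α), ∀ᶠ b in (u : Filter α), P a b) ∨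
      ∀ᶠ a in (u : Filter α), ∀ᶠ b in (u : Filter α), ¬ P a b := by
  by_cases h : ∀ᶠ a in (u : Filter α), ∀ᶠ b in (u : Filter α), P a b
  · exact Or.inl h
  · right
    have h1 := Ultrafilter.eventually_not.2 h
    filter_upwards [h1] with a ha
    exact Ultrafilter.eventually_not.2 ha

end Pool.Agent.H10.PO
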