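import Pool.Agent.H10.PO.Comp
import Pool.Agent.H10.PO.Ultra

/-!
# Part E (helper10): the data of part E

`Sys M E` collects the facts from parts C (convexity), P, S, T which are used to prove that the set `EE` of
essential 2-faces is finite (`Sys.finite` in `Fin.lean`).  Meaning of the data:
`f : M → E` the tight map, `K = convexHull (range f)`, `ext` the extreme points of `K`, `edge` the set of the 1-dimensional
faces of `K`, `EE` the set of essential 2-faces, `c F = f ⁻¹' (rb F)`.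
-/

namespace Pool.Agent.H10.PO

open Set Filter Topology Pool.Agent.H61.PO

/-- data of part E -/
structure Sys (M E : Type*) [TopologicalSpace M] [NormedAddCommGroup E] [NormedSpace ℝ E] where
  f : M → E
  K : Set E
  ext : Set E
  edge : Set (Set E)
  EE : Set (Set E)
  c : Set E → Set M
  /-- the curves -/
  c_scc : ∀ F ∈ EE, SCC (c F)
  c_closed : ∀ F ∈ EE, IsClosed (c F)
  c_pre : ∀ F ∈ EE, IsPreconnected (c F)
  c_diff : ∀ F ∈ EE, ∀ G ∈ EE, F ≠ G → IsPreconnected (c F \ c G)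
  c_nsub : ∀ F ∈ EE, ∀ G ∈ EE, F ≠ G → ¬ c F ⊆ c G
  c_inter : ∀ F ∈ EE, ∀ G ∈ EE, F ≠ G → c F ∩ c G = f ⁻¹' (F ∩ G)
  c_sub : ∀ F ∈ EE, ∀ p ∈ c F, f p ∈ F
  c_ext : ∀ F ∈ EE, ∀ p, f p ∈ ext → f p ∈ F → p ∈ c F
  c_cases : ∀ F ∈ EE, ∀ p ∈ c F, f p ∈ ext ∨ ∃ e ∈ edge, e ⊆ F ∧ f p ∈ e
  /-- extreme points have exactly one preimage -/
  hat : ∀ x ∈ ext, ∃ p, f p = x ∧ ∀ q, f q = x → q = p
  /-- faces -/
  inter : ∀ F ∈ EE, ∀ G ∈ EE, F ≠ G → F ∩ G = ∅ ∨ (∃ v ∈ ext, F ∩ G = {v}) ∨ F ∩ G ∈ edge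
  edge_ends : ∀ e ∈ edge, ∃ v ∈ ext, ∃ w ∈ ext, v ≠ w ∧ e ∩ ext = {v, w}
  edge_face : ∀ e ∈ edge, ∀ F ∈ EE, ∀ y ∈ e ∩ F, y ∈ ext ∨ e ⊆ F
  edge_two : ∀ F ∈ EE, ∀ v ∈ ext, ∀ e₁ ∈ edge, ∀ e₂ ∈ edge, ∀ e₃ ∈ edge, e₁ ⊆ F → e₂ ⊆ F → e₃ ⊆ F →
    v ∈ e₁ → v ∈ e₂ → v ∈ e₃ → e₁ = e₂ ∨ e₁ = e₃ ∨ e₂ = e₃
  edge_inj : ∀ e ∈ edge, ∀ e' ∈ edge, e ∩ ext = e' ∩ ext → e = e'
  edge_conv : ∀ e ∈ edge, ∀ F ∈ EE, e ∩ ext ⊆ F → e ⊆ F
  three : ∀ F ∈ EE, ∃ x₁ ∈ ext ∩ F, ∃ x₂ ∈ ext ∩ F, ∃ x₃ ∈ ext ∩ F, x₁ ≠ x₂ ∧ x₁ ≠ x₃ ∧ x₂ ≠ x₃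
  /-- the preimage of the segment from a point of an edge to an end of the edge -/
  edge_seg : ∀ e ∈ edge, ∀ y ∈ e, y ∉ ext → ∀ v ∈ e ∩ ext, ∃ T : Set M, IsPreconnected T ∧
    (∀ p, f p = y → p ∈ T) ∧ (∀ p, f p = v → p ∈ T) ∧ (∀ p ∈ T, f p ∈ e) ∧
    ∀ p ∈ T, f p ∈ ext → f p = v
  /-- S2, S5 (intersecting pairs are flat) -/
  flat : ∀ F ∈ EE, ∀ G ∈ EE, F ≠ G → ¬ IsPreconnected ((c F ∪ c G)ᶜ) → (F ∩ G).Nonempty →
    ∃ Q, IsComp (c F ∪ c G)ᶜ Q ∧ ∀ p, f p ∈ ext → f p ∉ F → f p ∉ G → p ∈ Q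
  /-- S2, S3, S5 for disjoint pairs -/
  flat_or : ∀ F ∈ EE, ∀ G ∈ EE, F ≠ G → ¬ IsPreconnected ((c F ∪ c G)ᶜ) → F ∩ G = ∅ →
    (∃ Q, IsComp (c F ∪ c G)ᶜ Q ∧ ∀ p, f p ∈ ext → f p ∉ F → f p ∉ G → p ∈ Q) ∨
    ∃ (ell : E →L[ℝ] ℝ) (t : ℝ) (U V : Set M), IsComp (c F ∪ c G)ᶜ U ∧ IsComp (c F ∪ c G)ᶜ V ∧
      U ≠ V ∧ (∀ p ∈ U, t ≤ ell (f p)) ∧ (∀ p ∈ V, ell (f p) ≤ t) ∧
      (∀ p, f p ∈ ext → f p ∉ F → f p ∉ G → ell (f p) ≠ t ∧ (p ∈ U ∨ p ∈ V)) ∧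
      (∀ x ∈ F ∪ G, ell x = t) ∧ (∀ x ∈ K, ell x = t → x ∈ convexHull ℝ (F ∪ G)) ∧
      (Module.finrank ℝ (vectorSpan ℝ (F ∪ G)) = 5 ∧ Module.finrank ℝ E = 6)
  /-- S4 -/
  lim : ∀ F ∈ EE, ∀ G ∈ EE, F ≠ G → ¬ IsPreconnected ((c F ∪ c G)ᶜ) → ∀ W, IsComp (c F ∪ c G)ᶜ W →
    (closure W ∩ (c F \ c G)).Nonempty
  /-- T8 -/
  N : ℕ
  t8 : ∀ F : Fin N → Set E, (∀ i, F i ∈ EE) → Function.Injective F →
    ∃ i j, i ≠ j ∧ ¬ IsPreconnected ((c (F i) ∪ c (F j))ᶜ)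
  /-- T5 and arcs -/
  t5a : T5a M
  t5b : T5b M
  arc : ∀ γ B : Set M, SCC γ → IsClosed B → ∀ x ∈ γ \ B, ArcPt (γ ∪ B) x
  /-- E6 -/
  e6 : ∀ F : Fin 4 → Set E, (∀ i, F i ∈ EE) →
    (∀ i j, i ≠ j → (Module.finrank ℝ (vectorSpan ℝ (F i ∪ F j)) = 5 ∧ Module.finrank ℝ E = 6)) →
    ∀ (ell m : E →L[ℝ] ℝ) (s t : ℝ),
    (∀ x ∈ F 0 ∪ F 2, ell x = s) → (∀ x ∈ K, ell x = s → x ∈ convexHull ℝ (F 0 ∪ F 2)) →
    (∀ x ∈ F 1 ∪ F 3, m x = t) → (∀ x ∈ K, m x = t → x ∈ convexHull ℝ (F 1 ∪ F 3)) →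
    (∀ x ∈ ext ∩ F 1, s < ell x) → (∀ x ∈ ext ∩ F 3, ell x < s) →
    (∀ x ∈ ext ∩ F 0, t < m x) → (∀ x ∈ ext ∩ F 2, m x < t) → False

namespace Sys

variable {M E : Type*} [TopologicalSpace M] [NormedAddCommGroup E] [NormedSpace ℝ E] (S : Sys M E)

/-- the pair separates -/
def Sep (F G : Set E) : Prop := ¬ IsPreconnected ((S.c F ∪ S.c G)ᶜ)

theorem Sep.symm {F G : Set E} (h : S.Sep F G) : S.Sep G F := by
  unfold Sep at *
  rwa [union_comm]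

/-- the pair is flat -/
def Flat (F G : Set E) : Prop :=
  ∃ Q, IsComp (S.c F ∪ S.c G)ᶜ Q ∧ ∀ p, S.f p ∈ S.ext → S.f p ∉ F → S.f p ∉ G → p ∈ Q

theorem Flat.symm {F G : Set E} (h : S.Flat F G) : S.Flat G F := by
  obtain ⟨Q, h1, h2⟩ := h
  refine ⟨Q, ?_, fun p hp hG hF => h2 p hp hF hG⟩
  rwa [union_comm]

/-- a connected set covered by finitely many closed sets which are pairwise disjoint or equal lies in one of them -/
theorem cover_aux {X ι : Type*} [TopologicalSpace X] [Finite ι] {C : Set X} (hC : IsPreconnected C)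
    (hne : C.Nonempty) (A : ι → Set X) (hA : ∀ i, IsClosed (A i)) (hcov : C ⊆ ⋃ i, A i)
    (hdich : ∀ i j, A i = A j ∨ Disjoint (A i) (A j)) : ∃ i, C ⊆ A i := by
  classical
  obtain ⟨x, hx⟩ := hne
  obtain ⟨i, hi⟩ := mem_iUnion.1 (hcov hx)
  refine ⟨i, ?_⟩
  by_contra hcon
  obtain ⟨y, hyC, hyi⟩ := Set.not_subset.1 hcon
  have hB : IsClosed (⋃ j : {j : ι // A j ≠ A i}, A j) := isClosed_iUnion_of_finite fun j => hA j
  obtain ⟨z, hzC, hzi, hzB⟩ := isPreconnected_closed_iff.1 hC (A i) _ (hA i) hB (by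
      intro w hw
      obtain ⟨j, hj⟩ := mem_iUnion.1 (hcov hw)
      by_cases hji : A j = A i
      · left
        rwa [← hji]
      · right
        exact mem_iUnion.2 ⟨⟨j, hji⟩, hj⟩) ⟨x, hx, hi⟩ (by
      obtain ⟨j, hj⟩ := mem_iUnion.1 (hcov hyC)
      refine ⟨y, hyC, mem_iUnion.2 ⟨⟨j, fun he => hyi (he ▸ hj)⟩, hj⟩⟩)
  obtain ⟨⟨j, hji⟩, hj⟩ := mem_iUnion.1 hzB
  rcases hdich j i with h | h
  · exact hji h
  · exact Set.disjoint_left.1 h hj hzi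

theorem scc_nonempty {X : Type*} [TopologicalSpace X] {γ : Set X} (h : SCC γ) : γ.Nonempty := by
  obtain ⟨p, q, σ, τ, -, -, h3, rfl⟩ := h
  have : p ∈ σ ∩ τ := by rw [h3]; exact Or.inl rfl
  exact ⟨p, Or.inl this.1⟩

/-- **E1** for the system: four members, the first of which has a component missing all curves with each of
the others -/
theorem partners {F : Fin 4 → Set E} (hF : ∀ i, F i ∈ S.EE) (hinj : Function.Injective F)
    (hsep : ∀ j, j ≠ 0 → S.Sep (F 0) (F j))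
    (hW : ∀ j, j ≠ 0 → ∃ W, IsComp (S.c (F 0) ∪ S.c (F j))ᶜ W ∧ ∀ k, Disjoint W (S.c (F k)))
    (htri : ∀ j k, j ≠ 0 → k ≠ 0 → j ≠ k →
      (F 0 ∩ F j ∩ F k = ∅ ∨ (F 0 ∩ F j = F 0 ∩ F k ∧ F j ∩ F k ⊆ F 0))) : False := by
  classical
  have hne : ∀ i j, i ≠ j → F i ≠ F j := fun i j hij he => hij (hinj he)
  choose! W hW1 hW2 using hW
  refine three_partners S.t5a S.t5b S.arc (c := fun i => S.c (F i)) (W := W)
    (fun i => S.c_closed _ (hF i)) (fun i => S.c_scc _ (hF i))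
    (fun i j hij => S.c_diff _ (hF i) _ (hF j) (hne i j hij)) hW1 (fun j hj k => hW2 j hj k)
    (fun j hj => S.lim _ (hF 0) _ (hF j) (hne 0 j (Ne.symm hj)) (hsep j hj) _ (hW1 j hj)) ?_ ?_ ?_
  · intro j hj
    have h1 := hW1 j hj
    rw [union_comm] at h1
    exact S.lim _ (hF j) _ (hF 0) (hne j 0 hj) (Sep.symm S (hsep j hj)) _ h1
  · -- `c 0` is not covered by the others
    intro hcov
    have hA : ∀ j : {j : Fin 4 // j ≠ 0}, IsClosed (S.c (F 0) ∩ S.c (F j)) := fun j =>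
      (S.c_closed _ (hF 0)).inter (S.c_closed _ (hF j))
    obtain ⟨j, hj⟩ := cover_aux (S.c_pre _ (hF 0)) (scc_nonempty (S.c_scc _ (hF 0)))
      (fun j : {j : Fin 4 // j ≠ 0} => S.c (F 0) ∩ S.c (F j)) hA (by
        intro x hx
        rcases hcov hx with (h | h) | h
        · exact mem_iUnion.2 ⟨⟨1, by decide⟩, hx, h⟩
        · exact mem_iUnion.2 ⟨⟨2, by decide⟩, hx, h⟩
        · exact mem_iUnion.2 ⟨⟨3, by decide⟩, hx, h⟩) (by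
        rintro ⟨j, hj⟩ ⟨k, hk⟩
        by_cases hjk : j = k
        · left
          subst hjk
          rfl
        show S.c (F 0) ∩ S.c (F j) = S.c (F 0) ∩ S.c (F k) ∨
          Disjoint (S.c (F 0) ∩ S.c (F j)) (S.c (F 0) ∩ S.c (F k))
        rw [S.c_inter _ (hF 0) _ (hF j) (hne 0 j (Ne.symm hj)),
          S.c_inter _ (hF 0) _ (hF k) (hne 0 k (Ne.symm hk))]
        rcases htri j k hj hk hjk with h | ⟨h, -⟩
        · right
          rw [Set.disjoint_left]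
          rintro x ⟨h1, h2⟩ ⟨h3, h4⟩
          have : S.f x ∈ F 0 ∩ F j ∩ F k := ⟨⟨h1, h2⟩, h4⟩
          rw [h] at this
          exact this
        · left
          rw [h])
    exact S.c_nsub _ (hF 0) _ (hF j) (hne 0 j (Ne.symm j.2)) (hj.trans inter_subset_right)
  · intro j k hj hk hjk hcov
    have hA : ∀ b : Bool, IsClosed (S.c (F j) ∩ (if b then S.c (F 0) else S.c (F k))) := by
      intro b
      refine (S.c_closed _ (hF j)).inter ?_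
      cases b
      · exact S.c_closed _ (hF k)
      · exact S.c_closed _ (hF 0)
    have hdich : S.c (F j) ∩ S.c (F 0) = S.c (F j) ∩ S.c (F k) ∨
        Disjoint (S.c (F j) ∩ S.c (F 0)) (S.c (F j) ∩ S.c (F k)) := by
      rw [S.c_inter _ (hF j) _ (hF 0) (hne j 0 hj), S.c_inter _ (hF j) _ (hF k) (hne j k hjk)]
      rcases htri j k hj hk hjk with h | ⟨h, h'⟩
      · right
        rw [Set.disjoint_left]
        rintro x ⟨h1, h2⟩ ⟨h3, h4⟩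
        have : S.f x ∈ F 0 ∩ F j ∩ F k := ⟨⟨h2, h1⟩, h4⟩
        rw [h] at this
        exact this
      · left
        congr 1
        ext x
        constructor
        · rintro ⟨h1, h2⟩
          have : x ∈ F 0 ∩ F k := h ▸ (⟨h2, h1⟩ : x ∈ F 0 ∩ F j)
          exact ⟨h1, this.2⟩
        · rintro ⟨h1, h2⟩
          exact ⟨h1, h' ⟨h1, h2⟩⟩
    obtain ⟨b, hb⟩ := cover_aux (S.c_pre _ (hF j)) (scc_nonempty (S.c_scc _ (hF j)))
      (fun b : Bool => S.c (F j) ∩ (if b then S.c (F 0) else S.c (F k))) hA (by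
        intro x hx
        rcases hcov hx with h | h
        · exact mem_iUnion.2 ⟨true, hx, h⟩
        · exact mem_iUnion.2 ⟨false, hx, h⟩) (by
        intro a b
        cases a <;> cases b
        · left; rfl
        · rcases hdich with h | h
          · left; exact h.symm
          · right; exact h.symm
        · exact hdich
        · left; rfl)
    cases b
    · exact S.c_nsub _ (hF j) _ (hF k) (hne j k hjk) (hb.trans inter_subset_right)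
    · exact S.c_nsub _ (hF j) _ (hF 0) (hne j 0 hj) (hb.trans inter_subset_right)

end Sys

end Pool.Agent.H10.PO
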